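import Pool.Agent.Lib.MP_9cc147_pr.Cx.K0

/-! Statements of the pieces of the bounds at scale 0. -/

open scoped Classical Topology
open Finset MeasureTheory ProbabilityTheory Filter

noncomputable section
namespace Pool.Agent.Lib.MP_9cc147_pr.Cx

/-- vertices of the closed tiles -/
def pV (L : ℕ) (X : Finset P) : Finset P := X.biUnion (fat L 0)
/-- weight of a form -/
def pw (o : Mod) (n : ℕ) (S : Finset P) (δ : Form o.R) : ℝ :=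
  ∏ e ∈ he n S, Real.sqrt (o.xw (δ e))
/-- the edge has an end of weight 2 in the tile -/
def ptwo (L : ℕ) (s : Lab) (T : P) (e : P × Fin 4) : Prop :=
  (e.1 ∈ cell L T ∧ typ s e.1 = 2) ∨ ((rev e).1 ∈ cell L T ∧ typ s (rev e).1 = 2)
/-- at the tiles `X` the field is real up to a constant and a bounded part -/
def pFd (n L : ℕ) (H : ℝ) (X : Finset P) (Θ : Fld) (θ : P → ℝ) : Prop :=
  ∃ c : ℂ, (∀ p ∈ pV L X, ‖Θ p - θ p - c‖ ≤ H) ∧ ∀ p ∈ pV L X, p ∈ ring n → c = 0 ∧ θ p = 0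
def pg (K x : ℝ) : ℝ := if x = 0 then 1 else K * (1 + |x|) ^ 2
def pY (K : ℝ) (L : ℕ) (B : P) (ω : Om) : ℝ := ∏ x ∈ cell L B, ∏ d : Fin 4, pg K (ω (d.val, x))
/-- the majorant of the noise -/
def py (q : Par) (K : ℝ) (b : ℕ × ℕ) (B : P) (ω : Om) : ℝ :=
  Real.exp (q.κ * ∑ x ∈ cell q.L B, n1 (cf (zw (q.n b) ω)) x) * pY K q.L B ω
def pHm (o : Mod) (L : ℕ) : ℝ := ((L : ℝ) + 1) ^ 2 * (o.gap * ∑ i : Fin (ng o.R), 20 ^ i.val * 8)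
/-- charge on the arc where the background is 1 -/
def pJ (o : Mod) (n : ℕ) (S : Finset P) (δ : Form o.R) (ω : Om) : ℝ :=
  ∑ p ∈ (ring n).filter (fun p => uB n p = 1), o.rho n S δ ω p
def pQ (Ξ : Fld) (S : Finset P) : ℝ := ∑ x ∈ S, ∑ d, ‖dg Ξ x d‖ ^ 2
/-- smallness of the constants of the model -/
structure pSm (o : Mod) : Prop where
  η0 : 0 < o.η
  η1 : o.η ≤ 1 / 100
  R1 : 1 ≤ o.R
  gap : 0 ≤ o.gap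
  τ : (o.a, o.x1) ∈ rect
  eh0 : 0 ≤ o.eh
  eh1 : o.eh ≤ o.η ^ 2
  sig0 : 0 ≤ o.sig0
  sig1 : o.sig0 ≤ o.η ^ 2
  hl : ∀ y : ℂ, ‖((1 + o.eh : ℝ) : ℂ) * o.hl y - 1‖ ≤ Real.exp (2 * o.eh + o.sig0 * ‖y‖) - 1
/-- on a pure tile an edge is heavy with probability close to `gam` or to 0 -/
def pMarg (o : Mod) (n L : ℕ) (s : Lab) (T : P) : Prop := ∀ e ∈ he n (cell L T),
  |∑ δ ∈ pur o.R n L 0 s T, pw o n (cell L T) δ *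
      ((if isG (δ e) then 1 else 0) - if ptwo L s T e then o.gam else 0)| ≤
    o.η * ∑ δ ∈ pur o.R n L 0 s T, pw o n (cell L T) δ

def S_p_marg : Prop := ∀ᶠ q in FP, EvM fun η R gap Bw _ => ∀ h (τ : rect) b, Par.ok b 0 →
  ∀ s, ∀ T ∈ box (q.m b 0), 0 < (Mod.mk' η R gap Bw h τ).cp (q.n b) q.L s T ∧
    (deep 1 (q.m b 0) T → pMarg (Mod.mk' η R gap Bw h τ) (q.n b) q.L s T)

def S_p_rho : Prop := ∀ (o : Mod) (L m : ℕ) (X : Finset P) (δ : Form o.R) (ω : Om), 1 ≤ L →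
  0 ≤ o.gap → X ⊆ box m → δ ∈ forms o.R (L * m) (under L X) →
  (∀ p, p ∉ pV L X → o.rho (L * m) (under L X) δ ω p = 0) ∧
  ((∀ p ∈ pV L X, p ∉ ring (L * m)) →
    ∑ p ∈ inn (L * m), o.rho (L * m) (under L X) δ ω p = 0) ∧
  (∀ p ∈ vort (L * m) δ, p ∉ pV L (hvy (L * m) L ω X) →
    o.gap ≤ |o.rho (L * m) (under L X) δ ω p|) ∧
  |pJ o (L * m) (under L X) δ ω| ≤
    ∑ T ∈ X, (pHm o L + 2 * ∑ x ∈ cell L T, ∑ d : Fin 4, |ω (d.val, x)|)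

def S_p_pur : Prop := ∀ (o : Mod) (L m : ℕ) (T : P) (s : Lab) (ω : Om), 1 ≤ L → 0 ≤ o.gap →
  T ∈ box m → (T ∈ hvy (L * m) L ω {T} → pur o.R (L * m) L ω s T = ∅) ∧
  (T ∉ hvy (L * m) L ω {T} → pur o.R (L * m) L ω s T = pur o.R (L * m) L 0 s T ∧
    ∀ δ ∈ pur o.R (L * m) L 0 s T,
      (∀ p ∈ inn (L * m), o.rho (L * m) (under L {T}) δ ω p = 0) ∧
      |pJ o (L * m) (under L {T}) δ ω| ≤ pHm o L)

def S_p_mh : Prop := ∀ h, IsH h → ∀ K ε : ℝ, 1 ≤ K → 0 < ε → ∀ᶠ Bw : ℝ in atTop, ∀ o : Mod,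
  o.h = h → o.Bw = Bw → 0 ≤ o.eh ∧ o.eh ≤ ε ∧ 0 ≤ o.sig0 ∧ o.sig0 ≤ ε ∧
  (∀ y : ℂ, ‖((1 + o.eh : ℝ) : ℂ) * o.hl y - 1‖ ≤ Real.exp (2 * o.eh + o.sig0 * ‖y‖) - 1) ∧
  IsProbabilityMeasure o.mh ∧ Integrable (fun x => pg K x ^ 2) o.mh ∧
    ∫ x, pg K x ^ 2 ∂o.mh ≤ 1 + ε

def S_p_yint : Prop := ∀ (q : Par) (K : ℝ) (m : Measure ℝ) [IsProbabilityMeasure m] (b : ℕ × ℕ)
  (S : Finset P), 2 ≤ q.L → 0 ≤ q.κ → 1 ≤ K → Integrable (fun x => pg K x ^ 2) m →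
  ∫ x, pg K x ^ 2 ∂m ≤ 1 + 1 / (20 * (q.L : ℝ) ^ 2) →
  Mom (mu0 m) (fun ω => q.L * q.κ * ∑ x ∈ under q.L S, n1 (cf (zw (q.n b) ω)) x)
    ((5 / 4) ^ S.card) →
  Integrable (fun ω => ∏ B ∈ S, py q K b B ω) (mu0 m) ∧
    ∫ ω, ∏ B ∈ S, py q K b B ω ∂mu0 m ≤ 2 ^ S.card

def S_p_wt : Prop := ∀ (o : Mod) (L m : ℕ) (κ H t : ℝ) (z : ℂ) (Θ : Fld) (θ : P → ℝ) (ω : Om)
  (X : Finset P) (σ : P → Option Lab) (δ : Form o.R), 1 ≤ L → pSm o → o.η ≤ κ / 100 → 0 ≤ H →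
  t ≠ 0 → X ⊆ box m → δ ∈ forms o.R (L * m) (under L X) → pFd (L * m) L H X Θ θ →
  ‖o.wt (L * m) L m t z Θ ω X σ δ‖ ≤
    Real.exp ((L : ℝ) ^ 2 * (20 + 130 * H ^ 2) * X.card + κ / 4 * ∑ x ∈ under L X, n1 (cf θ) x +
      κ / 4 * ∑ x ∈ under L X, n1 (cf (zw (L * m) ω)) x +
      ∑ p ∈ inn (L * m), (-o.rho (L * m) (under L X) δ ω p ^ 2 / 64 +
        2 * H * |o.rho (L * m) (under L X) δ ω p|)) *
    (1 + ‖z‖ * |pJ o (L * m) (under L X) δ ω|) ^ 2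

def S_p_I1 : Prop := ∀ (o : Mod) (L m : ℕ) (t : ℝ) (z : ℂ) (Θ : Fld) (ω : Om) (s : Lab) (T : P),
  1 ≤ L → pSm o → t ≠ 0 → T ∈ box m → T ∉ hvy (L * m) L ω {T} → ‖z‖ * pHm o L ≤ o.η →
  0 < o.cp (L * m) L s T →
  ‖o.ip (L * m) L m t z Θ ω s T / o.cp (L * m) L s T - 1‖ ≤
    Real.exp (o.η * (2 * pQ (Θ + cf (zw (L * m) ω)) (cell L T) + 13 * (L : ℝ) ^ 2)) - 1

def S_p_I2 : Prop := ∀ (o : Mod) (L m : ℕ) (t : ℝ) (z : ℂ) (Θ : Fld) (ω : Om) (s : Lab) (T : P),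
  1 ≤ L → pSm o → T ∈ box m → deep 1 m T → T ∉ hvy (L * m) L ω {T} →
  0 < o.cp (L * m) L s T → pMarg o (L * m) L s T →
  ‖o.ip (L * m) L m t z Θ ω s T / o.cp (L * m) L s T -
      Complex.exp (-(o.lam0 s / 2 : ℂ) * En (Θ + cf (zw (L * m) ω)) (cell L T))‖ ≤
    3 * o.η ^ 2 * (pQ (Θ + cf (zw (L * m) ω)) (cell L T) + 12 * (L : ℝ) ^ 2) ^ 2 *
      Real.exp (o.η * (2 * pQ (Θ + cf (zw (L * m) ω)) (cell L T) + 12 * (L : ℝ) ^ 2))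

end Pool.Agent.Lib.MP_9cc147_pr.Cx
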