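import Pool.Agent.Lib.MP_9cc147_pr.Cx.P.Ia

/-! A pure tile over its count: distance to 1 and to the Gaussian factor. -/

open scoped Classical
open Finset

noncomputable section
namespace Pool.Agent.Lib.MP_9cc147_pr.Cx

/-- the weight of a pure form over its value at the zero field -/
def piF (o : Mod) (n L m : ℕ) (t : ℝ) (z : ℂ) (Ξ : Fld) (ω : Om) (T : P) (s : Lab)
    (δ : Form o.R) : ℂ :=
  Complex.exp (∑ e ∈ he n (cell L T), -((if isG (δ e) then o.η / 4 else 0 : ℝ) : ℂ) * piD Ξ e ^ 2) *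
    Complex.exp (∑ e ∈ piA n (cell L T), -((o.η / 4 : ℝ) : ℂ) * piD Ξ e ^ 2) *
    piG o n (cell L T) Ξ *
    Complex.exp (∑ e ∈ crs n (cell L T),
      ((((typ s e.1 : ℝ) - 1) * o.gam * o.η / 4 : ℝ) : ℂ) * piD Ξ e ^ 2) *
    if spec m {T} then Et z t (pJ o n (under L {T}) δ ω) else 1

theorem pi_pw0 (o : Mod) (n : ℕ) (S : Finset P) (δ : Form o.R) : 0 ≤ pw o n S δ :=
  prod_nonneg fun _ _ => Real.sqrt_nonneg _

theorem pi_rat (h : S_p_pur) {o : Mod} (hs : pSm o) {L m : ℕ} (hL : 1 ≤ L) {T : P}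
    (hT : T ∈ box m) {ω : Om} (hv : T ∉ hvy (L * m) L ω {T}) (s : Lab)
    (hc : 0 < o.cp (L * m) L s T) (t : ℝ) (z : ℂ) (Θ : Fld) (w : ℂ) {c : ℝ}
    (hb : ‖∑ δ ∈ pur o.R (L * m) L 0 s T, (pw o (L * m) (cell L T) δ : ℂ) *
      (piF o (L * m) L m t z (Θ + cf (zw (L * m) ω)) ω T s δ - w)‖ ≤
        (∑ δ ∈ pur o.R (L * m) L 0 s T, pw o (L * m) (cell L T) δ) * c) :
    ‖o.ip (L * m) L m t z Θ ω s T / o.cp (L * m) L s T - w‖ ≤ c := by
  obtain ⟨h1, h2⟩ := (h o L m T s ω hL hs.gap hT).2 hv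
  have hω : ∀ e ∈ hes (L * m), e.1 ∈ cell L T → ω (e.2.val, e.1) = 0 := by
    intro e he he'
    by_contra hn
    exact hv (mem_filter.2 ⟨mem_singleton_self _, e, he, he', hn⟩)
  have hr : 0 < o.r ^ (-nexp (L * m) L {T} fun _ => some s) := by
    have : (1 : ℝ) ≤ o.R := by exact_mod_cast hs.R1
    exact Real.rpow_pos_of_pos (by unfold Mod.r; linarith) _
  have e1 : o.cp (L * m) L s T = o.r ^ (-nexp (L * m) L {T} fun _ => some s) *
      ∑ δ ∈ pur o.R (L * m) L 0 s T, pw o (L * m) (cell L T) δ := rfl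
  have e2 : o.ip (L * m) L m t z Θ ω s T = (o.r ^ (-nexp (L * m) L {T} fun _ => some s) : ℝ) *
      ∑ δ ∈ pur o.R (L * m) L 0 s T, (pw o (L * m) (cell L T) δ : ℂ) *
        piF o (L * m) L m t z (Θ + cf (zw (L * m) ω)) ω T s δ := by
    rw [Mod.ip, h1]
    congr 1
    exact sum_congr rfl fun δ hδ => pi_wt o _ L m t z Θ ω T s δ hω (h2 δ hδ).1
  rw [e1] at hc
  have hZ := (mul_pos_iff_of_pos_left hr).1 hc
  rw [e1, e2]
  simp only [mul_sub, sum_sub_distrib, ← sum_mul, ← Complex.ofReal_sum] at hb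
  generalize (∑ δ ∈ pur o.R (L * m) L 0 s T, pw o (L * m) (cell L T) δ) = Z at *
  generalize (o.r ^ (-nexp (L * m) L {T} fun _ => some s)) = x at *
  have hx : (x : ℂ) ≠ 0 := by exact_mod_cast hr.ne'
  have hZ' : (Z : ℂ) ≠ 0 := by exact_mod_cast hZ.ne'
  rw [Complex.ofReal_mul, mul_div_mul_left _ _ hx, div_sub' hZ', norm_div, Complex.norm_real,
    Real.norm_of_nonneg hZ.le, div_le_iff₀' hZ]
  exact hb

theorem pi_typ (s : Lab) (x : P) : |(typ s x : ℝ) - 1| ≤ 1 := by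
  unfold typ
  split_ifs <;> norm_num

theorem t_p_I1 (h : S_p_pur) : S_p_I1 := by
  intro o L m t z Θ ω s T hL hs ht hT hv hz hc
  refine pi_rat h hs hL hT hv s hc t z Θ 1 (pi_avg _ _ _ _ (fun δ _ => pi_pw0 _ _ _ _)
    fun δ hδ => ?_)
  have hJ := (((h o L m T s ω hL hs.gap hT).2 hv).2 δ hδ).2
  generalize Θ + cf (zw (L * m) ω) = Ξ
  have hη := hs.η0
  have hη1 := hs.η1
  have hg := pi_gam hs
  have a1 := pi_exp' (pi_form (he (L * m) (cell L T)) Ξ
    (fun e => -((if isG (δ e) then o.η / 4 else 0 : ℝ) : ℂ)) (c := o.η / 4) (by positivity)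
    (fun e _ => by
      rw [norm_neg, Complex.norm_real, Real.norm_eq_abs, abs_le]
      split_ifs <;> constructor <;> linarith) (pi_he_le _ _ _))
  have a2 := pi_exp' (pi_form (piA (L * m) (cell L T)) Ξ
    (fun _ => -((o.η / 4 : ℝ) : ℂ)) (c := o.η / 4) (by positivity)
    (fun e _ => by rw [norm_neg, Complex.norm_real, Real.norm_of_nonneg (by positivity)])
    (pi_A_le _ _ _))
  have a3 := pi_G hs (L * m) L T Ξ
  have a4 := pi_exp' (pi_form (crs (L * m) (cell L T)) Ξ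
    (fun e => ((((typ s e.1 : ℝ) - 1) * o.gam * o.η / 4 : ℝ) : ℂ)) (c := o.η / 4) (by positivity)
    (fun e _ => by
      rw [Complex.norm_real, Real.norm_eq_abs, abs_div, abs_mul, abs_mul, abs_of_nonneg hg.1,
        abs_of_pos hη, abs_of_pos (a := (4 : ℝ)) (by norm_num)]
      have := mul_le_one₀ (pi_typ s e.1) hg.1 hg.2
      have := mul_le_of_le_one_left hη.le this
      linarith) (pi_crs_le _ _ _))
  have a5 : ‖(if spec m {T} then Et z t (pJ o (L * m) (under L {T}) δ ω) else 1) - 1‖ ≤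
      Real.exp o.η - 1 := by
    split_ifs
    · refine (pi_Et z ht _).trans ?_
      gcongr
      exact (mul_le_mul_of_nonneg_left hJ (norm_nonneg z)).trans hz
    · simpa using hη.le
  refine (pi_mul (pi_mul (pi_mul (pi_mul a1 a2) a3) a4) a5).trans ?_
  gcongr
  have hQ := pi_Q0 Ξ (cell L T)
  have hL1 : (1 : ℝ) ≤ (L : ℝ) ^ 2 := one_le_pow₀ (by exact_mod_cast hL)
  generalize pQ Ξ (cell L T) = Q at *
  generalize (L : ℝ) ^ 2 = l at *
  have b1 : o.η ^ 2 * (10 * l + Q / 2) ≤ o.η * (10 * l + Q / 2) := by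
    gcongr
    nlinarith
  nlinarith [mul_nonneg hη.le hQ, mul_le_mul_of_nonneg_left hL1 hη.le]

theorem pi_typ_rev {s : Lab} (hs : s ≠ 0) (e : P × Fin 4) :
    (typ s e.1 = 2 ∧ typ s (rev e).1 = 0) ∨ (typ s e.1 = 0 ∧ typ s (rev e).1 = 2) := by
  obtain ⟨x, d⟩ := e
  have : Even ((x + dir d).1 + (x + dir d).2) ↔ ¬ Even (x.1 + x.2) := by
    fin_cases d <;> simp [dir, Int.even_iff] <;> omega
  simp only [typ, rev, if_neg hs, this]
  by_cases a : Even (x.1 + x.2) <;> by_cases b : s = 1 <;> simp [a, b]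

theorem pi_deep_A {L m : ℕ} {T : P} (hd : deep 1 m T) :
    piA (L * m) (cell L T) = cell L T ×ˢ univ := by
  refine Subset.antisymm (pi_A_sub _ _) fun e he => ?_
  obtain ⟨x, d⟩ := e
  have hx := (mem_product.1 he).1
  refine mem_filter.2 ⟨?_, hx⟩
  obtain ⟨d1, d2, d3, d4⟩ := hd
  simp only [cell, mem_product, mem_Ico] at hx
  obtain ⟨⟨x1, x2⟩, x3, x4⟩ := hx
  have hL : (0 : ℤ) < L := by linarith
  rw [Nat.cast_one] at d1 d2 d3 d4
  have c1 := mul_le_mul_of_nonneg_right d1 hL.le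
  have c2 := mul_le_mul_of_nonneg_right (show T.1 + 2 ≤ m by omega) hL.le
  have c3 := mul_le_mul_of_nonneg_right d3 hL.le
  have c4 := mul_le_mul_of_nonneg_right (show T.2 + 2 ≤ m by omega) hL.le
  have b1 : 1 ≤ x.1 := by linarith
  have b2 : x.1 + 1 < L * m := by linarith
  have b3 : 1 ≤ x.2 := by linarith
  have b4 : x.2 + 1 < L * m := by linarith
  simp only [hes, box, mem_filter, mem_product, mem_Ico, mem_univ, and_true]
  push_cast
  fin_cases d <;> simp [dir] <;> omega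

theorem pi_deep_spec {m : ℕ} {T : P} (hd : deep 1 m T) : ¬ spec m {T} := by
  obtain ⟨d1, d2, d3, d4⟩ := hd
  simp only [spec, sds, mem_filter, mem_univ, true_and, mem_singleton, exists_eq_left]
  simp
  omega

/-- first order matching of the stiffness -/
theorem pi_split (o : Mod) {L m : ℕ} {T : P} (hd : deep 1 m T) (t : ℝ) (z : ℂ) (Ξ : Fld) (ω : Om)
    (s : Lab) (δ : Form o.R) : piF o (L * m) L m t z Ξ ω T s δ =
      piG o (L * m) (cell L T) Ξ * Complex.exp (-(o.lam0 s / 2 : ℂ) * En Ξ (cell L T)) *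
        Complex.exp (∑ e ∈ he (L * m) (cell L T), ((-(o.η / 4) *
          ((if isG (δ e) then 1 else 0) - if ptwo L s T e then o.gam else 0) : ℝ) : ℂ) *
            piD Ξ e ^ 2) := by
  have hE : En Ξ (cell L T) = ∑ e ∈ piA (L * m) (cell L T), (1 / 2) * piD Ξ e ^ 2 := by
    rw [pi_deep_A hd, sum_product, En]
    exact sum_congr rfl fun x _ => by rw [mul_sum]; rfl
  rw [piF, if_neg (pi_deep_spec hd), mul_one, mul_right_comm _ (piG _ _ _ _),
    mul_comm _ (piG _ _ _ _), ← Complex.exp_add, ← Complex.exp_add, hE]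
  rw [mul_assoc (piG _ _ _ _), ← Complex.exp_add]
  congr 2
  have k : ∀ (p : P × Fin 4 → Prop) [DecidablePred p] (a : P × Fin 4 → ℂ),
      ∑ e ∈ (hes (L * m)).filter p, a e * piD Ξ e ^ 2 =
        ∑ e ∈ hes (L * m), (if p e then a e else 0) * piD Ξ e ^ 2 := by
    intro p _ a
    rw [sum_filter]
    exact sum_congr rfl fun e _ => by split_ifs <;> simp
  rw [mul_sum]
  simp only [← mul_assoc]
  rw [he, piA, crs, k, k, k, k, k, ← sum_add_distrib, ← sum_add_distrib, ← sum_add_distrib]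
  simp only [← add_mul]
  refine pi_sym _ _ _ _ fun e => ?_
  simp only [pi_rev_rev, ptwo, Mod.lam0]
  by_cases hs : s = 0
  · subst hs
    have : ∀ x, typ 0 x = 1 := fun x => by simp [typ]
    by_cases a : e.1 ∈ cell L T <;> by_cases b : (rev e).1 ∈ cell L T <;>
      by_cases c : isG (δ e) <;> by_cases d : isG (δ (rev e)) <;>
      simp [this, a, b, c, d] <;> ring
  · rcases pi_typ_rev hs e with ⟨u, v⟩ | ⟨u, v⟩ <;>
      by_cases a : e.1 ∈ cell L T <;> by_cases b : (rev e).1 ∈ cell L T <;>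
      by_cases c : isG (δ e) <;> by_cases d : isG (δ (rev e)) <;>
      simp [u, v, hs, a, b, c, d] <;> ring

theorem pi_En (Ξ : Fld) (S : Finset P) : ‖En Ξ S‖ ≤ pQ Ξ S / 2 := by
  rw [En, pQ, sum_div]
  refine norm_sum_le_of_le _ fun x _ => ?_
  rw [norm_mul, mul_comm, div_eq_mul_one_div]
  refine mul_le_mul (norm_sum_le_of_le _ fun d _ => (norm_pow _ _).le) (by simp) (norm_nonneg _)
    (by positivity)

theorem t_p_I2 (h : S_p_pur) : S_p_I2 := by
  intro o L m t z Θ ω s T hL hs hT hd hv hc hm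
  refine pi_rat h hs hL hT hv s hc t z Θ _ ?_
  generalize Θ + cf (zw (L * m) ω) = Ξ
  simp only [pi_split o hd]
  have hη := hs.η0
  have hη1 := hs.η1
  have hg := pi_gam hs
  have hQ := pi_Q0 Ξ (cell L T)
  have hL1 : (1 : ℝ) ≤ (L : ℝ) ^ 2 := one_le_pow₀ (by exact_mod_cast hL)
  have aG := pi_G hs (L * m) L T Ξ
  have aI : ‖Complex.exp (-(o.lam0 s / 2 : ℂ) * En Ξ (cell L T))‖ ≤
      Real.exp (o.η * pQ Ξ (cell L T) / 2) := by
    refine (Complex.norm_exp_le_exp_norm _).trans (Real.exp_le_exp.2 ?_)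
    have h1 : ‖(-(o.lam0 s / 2) : ℂ)‖ ≤ o.η := by
      rw [norm_neg, norm_div, Complex.norm_real, Real.norm_eq_abs, Complex.norm_two,
        div_le_iff₀ (by norm_num), abs_le, Mod.lam0]
      split_ifs <;> constructor <;> nlinarith [hg.1, hg.2]
    rw [norm_mul, mul_div_assoc]
    exact mul_le_mul h1 (pi_En _ _) (norm_nonneg _) hη.le
  set u : Form o.R → P × Fin 4 → ℝ := fun δ e =>
    (if isG (δ e) then 1 else 0) - if ptwo L s T e then o.gam else 0 with hu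
  set W : Form o.R → ℂ := fun δ => ∑ e ∈ he (L * m) (cell L T),
    ((-(o.η / 4) * u δ e : ℝ) : ℂ) * piD Ξ e ^ 2 with hW
  have aW : ∀ δ, ‖W δ‖ ≤ o.η / 4 * (2 * pQ Ξ (cell L T)) := fun δ =>
    pi_form _ Ξ _ (by positivity) (fun e _ => by
      rw [Complex.norm_real, Real.norm_eq_abs, abs_mul, abs_neg, abs_of_pos (by positivity)]
      refine mul_le_of_le_one_right (by positivity) (abs_le.2 ?_)
      simp only [hu]
      split_ifs <;> constructor <;> linarith [hg.1, hg.2]) (pi_he_le _ _ _)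
  have hZ : 0 ≤ ∑ δ ∈ pur o.R (L * m) L 0 s T, pw o (L * m) (cell L T) δ :=
    sum_nonneg fun δ _ => pi_pw0 _ _ _ _
  have aM : ‖∑ δ ∈ pur o.R (L * m) L 0 s T, (pw o (L * m) (cell L T) δ : ℂ) * W δ‖ ≤
      o.η / 4 * (o.η * ∑ δ ∈ pur o.R (L * m) L 0 s T, pw o (L * m) (cell L T) δ) *
        (2 * pQ Ξ (cell L T)) := by
    have : ∑ δ ∈ pur o.R (L * m) L 0 s T, (pw o (L * m) (cell L T) δ : ℂ) * W δ =
        ∑ e ∈ he (L * m) (cell L T), ((-(o.η / 4) * ∑ δ ∈ pur o.R (L * m) L 0 s T,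
          pw o (L * m) (cell L T) δ * u δ e : ℝ) : ℂ) * piD Ξ e ^ 2 := by
      simp only [hW, mul_sum]
      rw [sum_comm]
      refine sum_congr rfl fun e _ => ?_
      rw [Complex.ofReal_sum, sum_mul]
      exact sum_congr rfl fun δ _ => by push_cast; ring
    rw [this]
    refine pi_form _ Ξ _ (by positivity) (fun e he => ?_) (pi_he_le _ _ _)
    rw [Complex.norm_real, Real.norm_eq_abs, abs_mul, abs_neg, abs_of_pos (by positivity)]
    exact mul_le_mul_of_nonneg_left (hm e he) (by positivity)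
  change ‖∑ δ ∈ pur o.R (L * m) L 0 s T, (pw o (L * m) (cell L T) δ : ℂ) *
    (piG o (L * m) (cell L T) Ξ * Complex.exp (-(o.lam0 s / 2 : ℂ) * En Ξ (cell L T)) *
      Complex.exp (W δ) - Complex.exp (-(o.lam0 s / 2 : ℂ) * En Ξ (cell L T)))‖ ≤ _
  generalize Complex.exp (-(o.lam0 s / 2 : ℂ) * En Ξ (cell L T)) = Y at *
  generalize piG o (L * m) (cell L T) Ξ = G at *
  generalize pQ Ξ (cell L T) = Q at *
  generalize (L : ℝ) ^ 2 = l at *
  have hx : 0 ≤ o.η ^ 2 * (10 * l + Q / 2) := by positivity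
  have aG' : ‖G - 1‖ ≤ o.η ^ 2 * (10 * l + Q / 2) * Real.exp (o.η ^ 2 * (10 * l + Q / 2)) := by
    refine aG.trans ?_
    generalize o.η ^ 2 * (10 * l + Q / 2) = x at *
    have h1 := Real.add_one_le_exp (-x)
    have h2 := mul_le_mul_of_nonneg_right h1 (Real.exp_pos x).le
    rw [← Real.exp_add, neg_add_cancel, Real.exp_zero] at h2
    linarith
  let E : ℝ := Real.exp (o.η * (Q + 12 * l))
  have b1 : o.η ^ 2 * (10 * l + Q / 2) ≤ o.η * (10 * l + Q / 2) := by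
    gcongr
    nlinarith
  have hE : Real.exp (o.η ^ 2 * (10 * l + Q / 2)) * Real.exp (o.η / 4 * (2 * Q)) ≤ E := by
    rw [← Real.exp_add]
    exact Real.exp_le_exp.2 (by nlinarith)
  have hE1 : Real.exp (o.η / 4 * (2 * Q)) ≤ E :=
    Real.exp_le_exp.2 (by nlinarith [mul_nonneg hη.le hQ])
  have hE2 : 1 ≤ E := Real.one_le_exp (by positivity)
  have aR : ∀ δ, ‖(G - 1) * Complex.exp (W δ) + (Complex.exp (W δ) - 1 - W δ)‖ ≤
      o.η ^ 2 * (10 * l + Q / 2 + Q ^ 2 / 4) * E := by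
    intro δ
    have c1 : ‖Complex.exp (W δ)‖ ≤ Real.exp (o.η / 4 * (2 * Q)) :=
      (Complex.norm_exp_le_exp_norm _).trans (Real.exp_le_exp.2 (aW δ))
    have c2 : ‖Complex.exp (W δ) - 1 - W δ‖ ≤ (o.η / 4 * (2 * Q)) ^ 2 * E := by
      have := Complex.norm_exp_sub_sum_le_norm_mul_exp (W δ) 2
      simp only [sum_range_succ, range_zero, sum_empty, pow_zero, Nat.factorial_zero,
        Nat.cast_one, div_one, zero_add, pow_one, Nat.factorial_one, ← sub_sub] at this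
      exact this.trans (mul_le_mul (pow_le_pow_left₀ (norm_nonneg _) (aW δ) 2)
        ((Real.exp_le_exp.2 (aW δ)).trans hE1) (Real.exp_pos _).le (sq_nonneg _))
    have c3 : ‖(G - 1) * Complex.exp (W δ)‖ ≤ o.η ^ 2 * (10 * l + Q / 2) * E := by
      rw [norm_mul]
      refine (mul_le_mul aG' c1 (norm_nonneg _) (by positivity)).trans ?_
      rw [mul_assoc]
      exact mul_le_mul_of_nonneg_left hE hx
    refine (norm_add_le_of_le c3 c2).trans (le_of_eq ?_)
    ring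
  have a1 := pi_avg (pur o.R (L * m) L 0 s T) (pw o (L * m) (cell L T)) _ _
    (fun δ _ => pi_pw0 _ _ _ _) fun δ _ => aR δ
  have e1 : ∑ δ ∈ pur o.R (L * m) L 0 s T, (pw o (L * m) (cell L T) δ : ℂ) *
      (G * Y * Complex.exp (W δ) - Y) = Y * (∑ δ ∈ pur o.R (L * m) L 0 s T,
        (pw o (L * m) (cell L T) δ : ℂ) *
          ((G - 1) * Complex.exp (W δ) + (Complex.exp (W δ) - 1 - W δ)) +
        ∑ δ ∈ pur o.R (L * m) L 0 s T, (pw o (L * m) (cell L T) δ : ℂ) * W δ) := by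
    rw [← sum_add_distrib, mul_sum]
    exact sum_congr rfl fun δ _ => by ring
  rw [e1, norm_mul]
  refine (mul_le_mul aI (norm_add_le_of_le a1 aM) (norm_nonneg _) (Real.exp_pos _).le).trans ?_
  generalize (∑ δ ∈ pur o.R (L * m) L 0 s T, pw o (L * m) (cell L T) δ) = Z at *
  have f1 : Real.exp (o.η * Q / 2) * E ≤ Real.exp (o.η * (2 * Q + 12 * l)) := by
    rw [← Real.exp_add]
    exact Real.exp_le_exp.2 (by nlinarith [mul_nonneg hη.le hQ])
  have f2 : 10 * l + Q / 2 + Q ^ 2 / 4 + Q / 2 ≤ 3 * (Q + 12 * l) ^ 2 := by nlinarith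
  calc _ = Z * o.η ^ 2 * (Real.exp (o.η * Q / 2) *
        ((10 * l + Q / 2 + Q ^ 2 / 4) * E + Q / 2 * 1)) := by ring
    _ ≤ Z * o.η ^ 2 * (Real.exp (o.η * Q / 2) *
        ((10 * l + Q / 2 + Q ^ 2 / 4) * E + Q / 2 * E)) := by gcongr
    _ = Z * o.η ^ 2 * ((10 * l + Q / 2 + Q ^ 2 / 4 + Q / 2) * (Real.exp (o.η * Q / 2) * E)) := by
      ring
    _ ≤ Z * o.η ^ 2 * (3 * (Q + 12 * l) ^ 2 * Real.exp (o.η * (2 * Q + 12 * l))) := by gcongr
    _ = _ := by ring

end Pool.Agent.Lib.MP_9cc147_pr.Cx
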