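import Pool.Agent.Lib.MP_9cc147_pr.Cx.P.KN

/-! The bound on the activity of one tile at scale 0. -/

open scoped Classical Topology
open Finset MeasureTheory ProbabilityTheory Filter

noncomputable section
namespace Pool.Agent.Lib.MP_9cc147_pr.Cx

theorem pib_card (L : ℕ) (B : P) : ((cell L B).card : ℝ) = (L : ℝ) ^ 2 := by
  have h (a : ℤ) : (Ico (a * L) ((a + 1) * L)).card = L := by
    rw [Int.card_Ico]
    have : (a + 1) * L - a * L = (L : ℤ) := by ring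
    rw [this, Int.toNat_natCast]
  rw [cell, card_product, h, h]; push_cast; ring

theorem pib_crn {L : ℕ} {x T : P} (h : x ∈ cell L T) (d : Fin 4) : x + crn d ∈ pV L {T} := by
  simp only [cell, mem_product, mem_Ico] at h
  simp only [pV, singleton_biUnion, fat, mem_product, mem_Icc]
  fin_cases d <;> simp [crn] <;> omega

theorem pib_Q {n L : ℕ} {H : ℝ} {T : P} {Θ : Fld} {θ : P → ℝ} (hF : pFd n L H {T} Θ θ)
    (ζ : P → ℝ) : pQ (Θ + cf ζ) (cell L T) ≤ 6 * ∑ x ∈ cell L T, n1 (cf θ) x +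
      6 * ∑ x ∈ cell L T, n1 (cf ζ) x + 48 * H ^ 2 * (L : ℝ) ^ 2 := by
  obtain ⟨c, hc, -⟩ := hF
  have h1 : ∀ x ∈ cell L T, ∑ d, ‖dg (Θ + cf ζ) x d‖ ^ 2 ≤
      6 * n1 (cf θ) x + 6 * n1 (cf ζ) x + 48 * H ^ 2 := by
    intro x hx
    have h2 (d : Fin 4) : ‖dg (Θ + cf ζ) x d‖ ^ 2 ≤
        3 * ‖dg (cf θ) x d‖ ^ 2 + 3 * ‖dg (cf ζ) x d‖ ^ 2 + 12 * H ^ 2 := by
      have a1 := hc _ (pib_crn hx (d + 1))
      have a2 := hc _ (pib_crn hx d)
      have e : dg (Θ + cf ζ) x d = dg (cf θ) x d + dg (cf ζ) x d +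
          ((Θ (x + crn (d + 1)) - θ (x + crn (d + 1)) - c) - (Θ (x + crn d) - θ (x + crn d) - c)) := by
        simp only [dg, cf, Pi.add_apply]; ring
      have b1 : ‖dg (Θ + cf ζ) x d‖ ≤ ‖dg (cf θ) x d‖ + ‖dg (cf ζ) x d‖ + 2 * H := by
        rw [e]
        refine (norm_add_le _ _).trans (add_le_add (norm_add_le _ _) ?_)
        exact (norm_sub_le _ _).trans (by linarith)
      have b2 := pow_le_pow_left₀ (norm_nonneg _) b1 2
      nlinarith [sq_nonneg (‖dg (cf θ) x d‖ - ‖dg (cf ζ) x d‖), sq_nonneg (‖dg (cf θ) x d‖ - 2 * H),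
        sq_nonneg (‖dg (cf ζ) x d‖ - 2 * H)]
    refine (sum_le_sum fun d _ => h2 d).trans (le_of_eq ?_)
    simp only [n1, sum_add_distrib, ← mul_sum, sum_const, card_univ, Fintype.card_fin, nsmul_eq_mul]
    push_cast; ring
  refine (sum_le_sum h1).trans (le_of_eq ?_)
  simp only [sum_add_distrib, ← mul_sum, sum_const, nsmul_eq_mul, pib_card]
  ring

theorem pib_Q0 (Ξ : Fld) (S : Finset P) : 0 ≤ pQ Ξ S := by unfold pQ; positivity

theorem pib_En (Ξ : Fld) (S : Finset P) : ‖En Ξ S‖ ≤ pQ Ξ S / 2 := by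
  rw [En, pQ, sum_div]
  refine (norm_sum_le _ _).trans (sum_le_sum fun x _ => ?_)
  rw [norm_mul]
  have : ‖∑ d, dg Ξ x d ^ 2‖ ≤ ∑ d, ‖dg Ξ x d‖ ^ 2 :=
    (norm_sum_le _ _).trans (le_of_eq (sum_congr rfl fun d _ => norm_pow _ _))
  have e : ‖(1 / 2 : ℂ)‖ = 1 / 2 := by simp
  rw [e]; linarith

theorem pib_bg {n : ℕ} (hu : ∀ p, 0 ≤ uu n p ∧ uu n p ≤ 1) {z : ℂ} (hz : ‖z‖ ≤ 1) (L : ℕ) (T : P) :
    ‖En (bg n z) (cell L T)‖ ≤ 2 * (L : ℝ) ^ 2 := by
  refine (pib_En _ _).trans ?_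
  have h (x : P) (d : Fin 4) : ‖dg (bg n z) x d‖ ^ 2 ≤ 1 := by
    have e : dg (bg n z) x d = z * ((uu n (x + crn (d + 1)) - uu n (x + crn d) : ℝ) : ℂ) := by
      simp only [dg, bg]; push_cast; ring
    rw [e, norm_mul, Complex.norm_real, Real.norm_eq_abs]
    have a1 := hu (x + crn (d + 1))
    have a2 := hu (x + crn d)
    have : |uu n (x + crn (d + 1)) - uu n (x + crn d)| ≤ 1 := abs_le.2 ⟨by linarith, by linarith⟩
    exact pow_le_one₀ (by positivity) (mul_le_one₀ hz (abs_nonneg _) this)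
  have : pQ (bg n z) (cell L T) ≤ ∑ x ∈ cell L T, ∑ d : Fin 4, (1 : ℝ) :=
    sum_le_sum fun x _ => sum_le_sum fun d _ => h x d
  simp only [sum_const, card_univ, Fintype.card_fin, nsmul_eq_mul, pib_card] at this
  push_cast at this; linarith

/-- constant of the one tile bound -/
def pC0 (L : ℕ) (κ H : ℝ) : ℝ := (9216 / κ ^ 2 + 2 * ((48 * H ^ 2 + 14) * (L : ℝ) ^ 2) ^ 2) *
  Real.exp (2 * ((48 * H ^ 2 + 14) * (L : ℝ) ^ 2))

theorem pib_G {L : ℕ} {κ H η Q a b : ℝ} (hκ : 0 < κ) (h0 : 0 ≤ η) (h1 : η ≤ 1) (h2 : η ≤ κ / 100)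
    (hQ0 : 0 ≤ Q) (ha : 0 ≤ a) (hb : 0 ≤ b) (hQ : Q ≤ 6 * a + 6 * b + 48 * H ^ 2 * (L : ℝ) ^ 2) :
    (Q + 14 * (L : ℝ) ^ 2) ^ 2 * Real.exp (η * (2 * Q + 13 * (L : ℝ) ^ 2)) ≤
      pC0 L κ H * (Real.exp (κ * b) * Real.exp (κ / 4 * a)) := by
  set c := (48 * H ^ 2 + 14) * (L : ℝ) ^ 2 with hc
  have c0 : 0 ≤ c := by positivity
  have l0 : 0 ≤ (L : ℝ) ^ 2 := by positivity
  have g0 : 0 ≤ H ^ 2 * (L : ℝ) ^ 2 := by positivity
  set x := a + b with hx
  have x0 : 0 ≤ x := by positivity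
  have e1 : 1 ≤ Real.exp (κ * x / 8) := Real.one_le_exp (by positivity)
  have e2 : x ^ 2 ≤ 128 / κ ^ 2 * Real.exp (κ * x / 8) := by
    have := Real.quadratic_le_exp_of_nonneg (by positivity : 0 ≤ κ * x / 8)
    rw [div_mul_eq_mul_div, le_div_iff₀ (by positivity)]
    nlinarith [mul_nonneg hκ.le x0]
  have e3 : (Q + 14 * (L : ℝ) ^ 2) ^ 2 ≤ (9216 / κ ^ 2 + 2 * c ^ 2) * Real.exp (κ * x / 8) := by
    have : Q + 14 * (L : ℝ) ^ 2 ≤ 6 * x + c := by rw [hc, hx]; linarith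
    have t := pow_le_pow_left₀ (by positivity) this 2
    have t2 := mul_le_mul_of_nonneg_left e1 (by positivity : 0 ≤ 2 * c ^ 2)
    have t3 : 9216 / κ ^ 2 * Real.exp (κ * x / 8) = 72 * (128 / κ ^ 2 * Real.exp (κ * x / 8)) := by
      ring
    nlinarith [sq_nonneg (6 * x - c)]
  have e4 : η * (2 * Q + 13 * (L : ℝ) ^ 2) ≤ 2 * c + κ * x / 8 := by
    have : 2 * Q + 13 * (L : ℝ) ^ 2 ≤ 12 * x + 2 * c := by rw [hc, hx]; linarith
    have t := mul_le_mul_of_nonneg_left this h0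
    nlinarith [mul_le_mul_of_nonneg_right h1 c0, mul_le_mul_of_nonneg_right h2 x0,
      mul_nonneg hκ.le x0]
  calc _ ≤ (9216 / κ ^ 2 + 2 * c ^ 2) * Real.exp (κ * x / 8) * Real.exp (2 * c + κ * x / 8) := by
        gcongr
    _ = pC0 L κ H * Real.exp (κ * x / 8 + κ * x / 8) := by
        rw [pC0, ← hc, Real.exp_add, Real.exp_add]; ring
    _ ≤ _ := by
        rw [← Real.exp_add]
        refine mul_le_mul_of_nonneg_left (Real.exp_le_exp.2 ?_) (by unfold pC0; positivity)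
        rw [hx]; nlinarith [mul_nonneg hκ.le hb]

theorem pib_gam {o : Mod} (ho : (o.a, o.x1) ∈ rect) : 0 ≤ o.gam ∧ o.gam ≤ 1 := by
  have h : -o.a ≤ 1 / 100 := by have := ho.1.1; simp only at this; linarith
  have h1 : Real.exp (-o.a) ≤ 2 := by
    have := Real.exp_bound_div_one_sub_of_interval' (x := 1 / 100) (by norm_num) (by norm_num)
    exact (Real.exp_le_exp.2 h).trans (this.le.trans (by norm_num))
  unfold Mod.gam
  constructor <;> linarith [Real.exp_pos (-o.a)]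

theorem pib_lam {o : Mod} (ho : pSm o) (s : Lab) : 0 ≤ o.lam0 s ∧ o.lam0 s ≤ 2 * o.η := by
  obtain ⟨g0, g1⟩ := pib_gam ho.τ
  have := ho.η0
  unfold Mod.lam0
  split_ifs <;> constructor <;> nlinarith

theorem pib_I (h0 : S_p_pur) (h1 : S_p_I1) (h2 : S_p_I2) (o : Mod) (L m : ℕ) {κ H K C t : ℝ}
    (z E : ℂ) (Θ : Fld) (θ : P → ℝ) (ω : Om) (s : Lab) (T : P) (hL : 1 ≤ L) (ho : pSm o)
    (hκ : o.η ≤ κ / 100) (ht : t ≠ 0) (hT : T ∈ box m) (hF : pFd (L * m) L H {T} Θ θ)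
    (hz : ‖z‖ * pHm o L ≤ o.η) (hK : 1 ≤ o.η ^ 2 * K) (hC : 4 * pC0 L κ H ≤ C)
    (hc : 0 < o.cp (L * m) L s T) (hm : deep 1 m T → pMarg o (L * m) L s T)
    (hE : ‖E‖ ≤ 2 * (L : ℝ) ^ 2) (hE0 : deep 1 m T → E = 0) :
    ‖o.ip (L * m) L m t z Θ ω s T / o.cp (L * m) L s T - Complex.exp (-(o.lam0 s / 2 : ℂ) *
        (En (Θ + cf (zw (L * m) ω)) (cell L T) - E))‖ ≤
      (if deep 1 m T then C * o.η ^ 2 else C * o.η) *
        (Real.exp (κ * ∑ x ∈ cell L T, n1 (cf (zw (L * m) ω)) x) * pY K L T ω) *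
        Real.exp (κ / 4 * ∑ x ∈ cell L T, n1 (cf θ) x) := by
  have η0 := ho.η0
  have η1 : o.η ≤ 1 := by linarith [ho.η1]
  have κ0 : 0 < κ := by linarith
  have l1 : (1 : ℝ) ≤ (L : ℝ) ^ 2 := one_le_pow₀ (by exact_mod_cast hL)
  have K1 : 1 ≤ K := by
    by_contra hk
    have a1 := mul_lt_mul_of_pos_left (not_le.1 hk) (pow_pos η0 2)
    have a2 := pow_le_one₀ (n := 2) η0.le η1
    linarith
  set Q := pQ (Θ + cf (zw (L * m) ω)) (cell L T) with hQ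
  have Q0 : 0 ≤ Q := pib_Q0 _ _
  have G := pib_G κ0 η0.le η1 hκ Q0 (sum_nonneg fun x _ => pkn_n1 (cf θ) x)
    (sum_nonneg fun x _ => pkn_n1 (cf (zw (L * m) ω)) x) (pib_Q hF (zw (L * m) ω))
  set A := Real.exp (κ * ∑ x ∈ cell L T, n1 (cf (zw (L * m) ω)) x)
  set B := Real.exp (κ / 4 * ∑ x ∈ cell L T, n1 (cf θ) x)
  have AB : 0 < A * B := by positivity
  set X := Real.exp (o.η * (2 * Q + 13 * (L : ℝ) ^ 2)) with hX
  have X0 : 0 < X := Real.exp_pos _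
  set U := (Q + 14 * (L : ℝ) ^ 2) ^ 2 with hU
  have U1 : Q + 14 * (L : ℝ) ^ 2 ≤ U := by rw [hU]; nlinarith
  have C0 : 0 ≤ pC0 L κ H := by unfold pC0; positivity
  have G4 : 4 * (U * X) ≤ C * (A * B) := by nlinarith
  have Cp : 0 ≤ C := by linarith
  set w : ℂ := -(o.lam0 s / 2 : ℂ) * (En (Θ + cf (zw (L * m) ω)) (cell L T) - E) with hw
  have w1 : ‖w‖ ≤ o.η * (2 * Q + 13 * (L : ℝ) ^ 2) := by
    obtain ⟨a0, a1⟩ := pib_lam ho s
    have e : ‖-(o.lam0 s / 2 : ℂ)‖ = o.lam0 s / 2 := by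
      rw [norm_neg, norm_div, Complex.norm_real, Real.norm_of_nonneg a0]; simp
    rw [hw, norm_mul, e]
    have := (norm_sub_le _ E).trans (add_le_add (pib_En (Θ + cf (zw (L * m) ω)) (cell L T)) hE)
    exact mul_le_mul (by linarith) (this.trans (by linarith)) (norm_nonneg _) η0.le
  have Y1 := pkn_Y1 K1 L T ω
  have fin (β : ℝ) (hβ : 0 ≤ β) : β * (4 * (U * X)) ≤ C * β * (A * pY K L T ω) * B := by
    have := mul_le_mul_of_nonneg_left Y1 (by positivity : 0 ≤ β * (C * (A * B)))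
    nlinarith [mul_le_mul_of_nonneg_left G4 hβ]
  obtain ⟨p1, -⟩ := h0 o L m T s ω hL ho.gap hT
  by_cases hh : T ∈ hvy (L * m) L ω {T}
  · have e : o.ip (L * m) L m t z Θ ω s T = 0 := by rw [Mod.ip, p1 hh]; simp
    have y := pkn_Y K1 (L * m) L ω {T} T
    rw [if_pos hh] at y
    have y2 : K ≤ pY K L T ω := (le_mul_of_one_le_right (by linarith)
      (one_le_pow₀ (le_add_of_nonneg_right (by positivity)))).trans y
    rw [e, zero_div, zero_sub, norm_neg]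
    have b1 : ‖Complex.exp w‖ ≤ X := (Complex.norm_exp_le_exp_norm w).trans (Real.exp_le_exp.2 w1)
    have b2 : X ≤ C * (A * B) := by nlinarith
    have b3 : 1 ≤ o.η ^ 2 * pY K L T ω := hK.trans (by gcongr)
    have b4 : C * o.η ^ 2 ≤ if deep 1 m T then C * o.η ^ 2 else C * o.η := by
      split_ifs
      · exact le_rfl
      · exact mul_le_mul_of_nonneg_left (by nlinarith) Cp
    calc _ ≤ C * (A * B) * 1 := by linarith
      _ ≤ C * (A * B) * (o.η ^ 2 * pY K L T ω) := by gcongr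
      _ = C * o.η ^ 2 * (A * pY K L T ω) * B := by ring
      _ ≤ _ := by gcongr
  · by_cases hd : deep 1 m T
    · rw [if_pos hd, hw, hE0 hd, sub_zero]
      refine (h2 o L m t z Θ ω s T hL ho hT hd hh hc (hm hd)).trans (le_trans ?_ (fin _ (sq_nonneg _)))
      rw [← hQ]
      have b1 : Real.exp (o.η * (2 * Q + 12 * (L : ℝ) ^ 2)) ≤ X := by rw [hX]; gcongr; norm_num
      have b2 : (Q + 12 * (L : ℝ) ^ 2) ^ 2 ≤ U := by rw [hU]; gcongr; norm_num
      calc _ ≤ 3 * o.η ^ 2 * U * X := by gcongr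
        _ ≤ _ := by nlinarith [mul_nonneg (sq_nonneg o.η) (mul_nonneg (sq_nonneg _ : 0 ≤ U) X0.le)]
    · rw [if_neg hd]
      have b1 := h1 o L m t z Θ ω s T hL ho ht hT hh hz hc
      rw [← hQ, ← hX] at b1
      set σ := o.η * (2 * Q + 13 * (L : ℝ) ^ 2) with hσ
      have b2 : X - 1 ≤ σ * X := by
        have := mul_le_mul_of_nonneg_right (Real.add_one_le_exp (-σ)) X0.le
        have e : Real.exp (-σ) * X = 1 := by rw [hX, ← Real.exp_add]; simp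
        linarith
      have b3 : ‖Complex.exp w - 1‖ ≤ σ * X := by
        have := Complex.norm_exp_sub_sum_le_norm_mul_exp w 1
        simp only [range_one, sum_singleton, pow_zero, Nat.factorial_zero, Nat.cast_one, div_one,
          pow_one] at this
        exact this.trans (mul_le_mul w1 (Real.exp_le_exp.2 w1) (Real.exp_pos _).le
          ((norm_nonneg _).trans w1))
      have b4 : σ * X ≤ o.η * (2 * U) * X := by rw [hσ]; gcongr; linarith
      refine (norm_sub_le_norm_sub_add_norm_sub _ 1 _).trans (le_trans ?_ (fin _ η0.le))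
      rw [norm_sub_rev 1]
      linarith

end Pool.Agent.Lib.MP_9cc147_pr.Cx
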