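import Pool.Agent.Lib.MP_9cc147_pr.Cx.P.S

/-! Tools for the weight of a pure tile: products close to 1, sums over edges. -/

open scoped Classical
open Finset

noncomputable section
namespace Pool.Agent.Lib.MP_9cc147_pr.Cx

theorem pi_exp (w : ℂ) : ‖Complex.exp w - 1‖ ≤ Real.exp ‖w‖ - 1 := by
  simpa using Complex.norm_exp_sub_sum_le_exp_norm_sub_sum w 1

theorem pi_exp' {w : ℂ} {a : ℝ} (h : ‖w‖ ≤ a) : ‖Complex.exp w - 1‖ ≤ Real.exp a - 1 :=
  (pi_exp w).trans (by gcongr)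

theorem pi_mul {f g : ℂ} {a b : ℝ} (hf : ‖f - 1‖ ≤ Real.exp a - 1)
    (hg : ‖g - 1‖ ≤ Real.exp b - 1) : ‖f * g - 1‖ ≤ Real.exp (a + b) - 1 := by
  rw [show f * g - 1 = (f - 1) * (g - 1) + (f - 1) + (g - 1) by ring, Real.exp_add]
  have h1 := norm_add₃_le (a := (f - 1) * (g - 1)) (b := f - 1) (c := g - 1)
  have h2 : ‖(f - 1) * (g - 1)‖ ≤ (Real.exp a - 1) * (Real.exp b - 1) := by
    rw [norm_mul]
    exact mul_le_mul hf hg (norm_nonneg _) ((norm_nonneg _).trans hf)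
  nlinarith

theorem pi_prod {ι : Type} (S : Finset ι) (f : ι → ℂ) (a : ι → ℝ)
    (h : ∀ i ∈ S, ‖f i - 1‖ ≤ Real.exp (a i) - 1) :
    ‖∏ i ∈ S, f i - 1‖ ≤ Real.exp (∑ i ∈ S, a i) - 1 := by
  induction S using Finset.induction_on with
  | empty => simp
  | insert i S hi ih =>
    rw [prod_insert hi, sum_insert hi]
    exact pi_mul (h i (mem_insert_self _ _)) (ih fun j hj => h j (mem_insert_of_mem hj))

theorem pi_avg {ι : Type} (S : Finset ι) (w : ι → ℝ) (f : ι → ℂ) (c : ℝ) (hw : ∀ i ∈ S, 0 ≤ w i)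
    (h : ∀ i ∈ S, ‖f i‖ ≤ c) : ‖∑ i ∈ S, (w i : ℂ) * f i‖ ≤ (∑ i ∈ S, w i) * c := by
  rw [sum_mul]
  refine norm_sum_le_of_le _ fun i hi => ?_
  rw [norm_mul, Complex.norm_real, Real.norm_of_nonneg (hw i hi)]
  exact mul_le_mul_of_nonneg_left (h i hi) (hw i hi)

theorem pi_Et (z : ℂ) {t : ℝ} (ht : t ≠ 0) (J : ℝ) :
    ‖Et z t J - 1‖ ≤ Real.exp (‖z‖ * |J|) - 1 := by
  have h1 : |(Real.cos (t * J) - 1) / t ^ 2| ≤ |J| ^ 2 / 2 := by
    rw [abs_div, abs_of_pos (a := t ^ 2) (by positivity), div_le_iff₀ (by positivity), sq_abs,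
      abs_le]
    have := Real.one_sub_sq_div_two_le_cos (x := t * J)
    have := Real.cos_le_one (t * J)
    constructor <;> nlinarith [sq_nonneg (t * J)]
  have h2 : |Real.sin (t * J) / t| ≤ |J| := by
    rw [abs_div, div_le_iff₀ (abs_pos.2 ht), ← abs_mul, mul_comm J]
    exact Real.abs_sin_le_abs
  have h3 := Real.quadratic_le_exp_of_nonneg (x := ‖z‖ * |J|) (by positivity)
  rw [Et, add_assoc, add_sub_cancel_left]
  refine (norm_add_le _ _).trans ?_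
  simp only [norm_mul, norm_pow, Complex.norm_real, Real.norm_eq_abs, Complex.norm_I, one_mul]
  have h4 := mul_le_mul_of_nonneg_left h1 (sq_nonneg ‖z‖)
  have h5 := mul_le_mul_of_nonneg_left h2 (norm_nonneg z)
  nlinarith

theorem pi_rev_rev (e : P × Fin 4) : rev (rev e) = e := by
  obtain ⟨x, d⟩ := e
  fin_cases d <;> simp [rev, dir, Prod.ext_iff]

theorem pi_rev_hes {n : ℕ} {e : P × Fin 4} (h : e ∈ hes n) : rev e ∈ hes n := by
  obtain ⟨h1, h2⟩ := mem_filter.1 h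
  refine mem_filter.2 ⟨mem_product.2 ⟨h2, mem_univ _⟩, ?_⟩
  have := congrArg Prod.fst (pi_rev_rev e)
  rw [show (rev e).1 + dir (rev e).2 = e.1 from this]
  exact (mem_product.1 h1).1

/-- gradient across an oriented edge -/
def piD (Ξ : Fld) (e : P × Fin 4) : ℂ := dg Ξ e.1 e.2

theorem pi_D_rev (Ξ : Fld) (e : P × Fin 4) : piD Ξ (rev e) = -piD Ξ e := by
  obtain ⟨x, d⟩ := e
  fin_cases d <;> simp [piD, rev, dg, dir, crn, add_assoc]

theorem pi_sum_rev {M : Type} [AddCommMonoid M] (n : ℕ) (f : P × Fin 4 → M) :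
    ∑ e ∈ hes n, f (rev e) = ∑ e ∈ hes n, f e :=
  sum_bij' (fun e _ => rev e) (fun e _ => rev e) (fun _ h => pi_rev_hes h)
    (fun _ h => pi_rev_hes h) (fun e _ => pi_rev_rev e) (fun e _ => pi_rev_rev e) fun _ _ => rfl

theorem pi_sym (n : ℕ) (Ξ : Fld) (a b : P × Fin 4 → ℂ)
    (h : ∀ e, a e + a (rev e) = b e + b (rev e)) :
    ∑ e ∈ hes n, a e * piD Ξ e ^ 2 = ∑ e ∈ hes n, b e * piD Ξ e ^ 2 := by
  have k : ∀ c : P × Fin 4 → ℂ, 2 * ∑ e ∈ hes n, c e * piD Ξ e ^ 2 =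
      ∑ e ∈ hes n, (c e + c (rev e)) * piD Ξ e ^ 2 := by
    intro c
    have := pi_sum_rev n fun e => c e * piD Ξ e ^ 2
    simp only [pi_D_rev, neg_sq] at this
    simp only [add_mul, sum_add_distrib, this]
    ring
  refine mul_left_cancel₀ (two_ne_zero' ℂ) ?_
  rw [k, k]
  exact sum_congr rfl fun e _ => by rw [h]

/-- oriented edges that start in `S` -/
def piA (n : ℕ) (S : Finset P) : Finset (P × Fin 4) := (hes n).filter fun e => e.1 ∈ S

theorem pi_A_sub (n : ℕ) (S : Finset P) : piA n S ⊆ S ×ˢ univ := fun _ h =>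
  mem_product.2 ⟨(mem_filter.1 h).2, mem_univ _⟩

theorem pi_A_le (n : ℕ) (S : Finset P) (Ξ : Fld) : ∑ e ∈ piA n S, ‖piD Ξ e‖ ^ 2 ≤ pQ Ξ S := by
  refine (sum_le_sum_of_subset_of_nonneg (pi_A_sub n S) fun _ _ _ => by positivity).trans ?_
  rw [sum_product]
  rfl

theorem pi_crs_le (n : ℕ) (S : Finset P) (Ξ : Fld) : ∑ e ∈ crs n S, ‖piD Ξ e‖ ^ 2 ≤ pQ Ξ S := by
  refine le_trans (sum_le_sum_of_subset_of_nonneg (fun e he => ?_) fun _ _ _ => by positivity)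
    (pi_A_le n S Ξ)
  exact mem_filter.2 ⟨(mem_filter.1 he).1, (mem_filter.1 he).2.1⟩

theorem pi_he_le (n : ℕ) (S : Finset P) (Ξ : Fld) :
    ∑ e ∈ he n S, ‖piD Ξ e‖ ^ 2 ≤ 2 * pQ Ξ S := by
  have h1 := pi_A_le n S Ξ
  have h2 := pi_sum_rev n fun e => if e.1 ∈ S then ‖piD Ξ e‖ ^ 2 else 0
  simp only [pi_D_rev, norm_neg] at h2
  rw [piA, sum_filter] at h1
  rw [he, sum_filter, two_mul]
  refine le_trans ?_ (add_le_add h1 (h2.le.trans h1))
  rw [← sum_add_distrib]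
  refine sum_le_sum fun e _ => ?_
  have := sq_nonneg ‖piD Ξ e‖
  by_cases a : e.1 ∈ S <;> by_cases b : (rev e).1 ∈ S <;> simp [a, b]

theorem pi_card_cell (L : ℕ) (T : P) : (cell L T).card = L ^ 2 := by
  simp only [cell, card_product, Int.card_Ico]
  rw [show (T.1 + 1) * L - T.1 * L = (L : ℤ) by ring,
    show (T.2 + 1) * L - T.2 * L = (L : ℤ) by ring]
  simp [sq]

theorem pi_Q0 (Ξ : Fld) (S : Finset P) : 0 ≤ pQ Ξ S := by unfold pQ; positivity

/-- a quadratic form with coefficients of size `c` -/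
theorem pi_form (S : Finset (P × Fin 4)) (Ξ : Fld) (a : P × Fin 4 → ℂ) {c Q : ℝ} (hc : 0 ≤ c)
    (h : ∀ e ∈ S, ‖a e‖ ≤ c) (hQ : ∑ e ∈ S, ‖piD Ξ e‖ ^ 2 ≤ Q) :
    ‖∑ e ∈ S, a e * piD Ξ e ^ 2‖ ≤ c * Q := by
  refine le_trans ?_ (mul_le_mul_of_nonneg_left hQ hc)
  rw [mul_sum]
  refine norm_sum_le_of_le _ fun e he => ?_
  rw [norm_mul, norm_pow]
  exact mul_le_mul_of_nonneg_right (h e he) (by positivity)

/-- the factor of the light noise -/
def piG (o : Mod) (n : ℕ) (S : Finset P) (Ξ : Fld) : ℂ :=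
  ∏ e ∈ piA n S, ((1 + o.eh : ℝ) : ℂ) * o.hl (piD Ξ e)

theorem pi_G {o : Mod} (h : pSm o) (n L : ℕ) (T : P) (Ξ : Fld) : ‖piG o n (cell L T) Ξ - 1‖ ≤
    Real.exp (o.η ^ 2 * (10 * (L : ℝ) ^ 2 + pQ Ξ (cell L T) / 2)) - 1 := by
  refine (pi_prod _ _ _ fun e _ => h.hl _).trans ?_
  gcongr
  have h1 : ((piA n (cell L T)).card : ℝ) ≤ 4 * (L : ℝ) ^ 2 := by
    have := card_le_card (pi_A_sub n (cell L T))
    rw [card_product, pi_card_cell, card_univ, Fintype.card_fin, mul_comm] at this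
    exact_mod_cast this
  have h2 := pi_A_le n (cell L T) Ξ
  have h3 : ∀ e ∈ piA n (cell L T), 2 * o.eh + o.sig0 * ‖piD Ξ e‖ ≤
      o.η ^ 2 * (5 / 2 + ‖piD Ξ e‖ ^ 2 / 2) := by
    intro e _
    have a1 := mul_le_mul_of_nonneg_right h.sig1 (norm_nonneg (piD Ξ e))
    have a2 : ‖piD Ξ e‖ ≤ 1 / 2 + ‖piD Ξ e‖ ^ 2 / 2 := by nlinarith [sq_nonneg (‖piD Ξ e‖ - 1)]
    have a3 := mul_le_mul_of_nonneg_left a2 (sq_nonneg o.η)
    have a4 := h.eh1
    linarith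
  refine (sum_le_sum h3).trans ?_
  rw [← mul_sum, sum_add_distrib, sum_const, nsmul_eq_mul, ← sum_div]
  exact mul_le_mul_of_nonneg_left (by linarith) (sq_nonneg _)

theorem pi_gam {o : Mod} (h : pSm o) : 0 ≤ o.gam ∧ o.gam ≤ 1 := by
  have h1 : -o.a ≤ 1 / 100 := by linarith [h.τ.1.1]
  have h2 : Real.exp (-o.a) ≤ 2 := by
    refine (Real.exp_le_exp.2 h1).trans ?_
    have := Real.exp_bound' (x := 1 / 100) (by norm_num) (by norm_num) (n := 1) (by norm_num)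
    norm_num at this
    linarith
  have := Real.exp_pos (-o.a)
  unfold Mod.gam
  constructor <;> linarith

theorem pi_under (L : ℕ) (T : P) : under L {T} = cell L T := singleton_biUnion

/-- the weight of a form without charges on a tile without heavy noise -/
theorem pi_wt (o : Mod) (n L m : ℕ) (t : ℝ) (z : ℂ) (Θ : Fld) (ω : Om) (T : P) (s : Lab)
    (δ : Form o.R) (hω : ∀ e ∈ hes n, e.1 ∈ cell L T → ω (e.2.val, e.1) = 0)
    (hρ : ∀ p ∈ inn n, o.rho n (under L {T}) δ ω p = 0) :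
    o.wt n L m t z Θ ω {T} (fun _ => some s) δ = (pw o n (cell L T) δ : ℂ) *
      (Complex.exp (∑ e ∈ he n (cell L T),
          -((if isG (δ e) then o.η / 4 else 0 : ℝ) : ℂ) * piD (Θ + cf (zw n ω)) e ^ 2) *
        Complex.exp (∑ e ∈ piA n (cell L T), -((o.η / 4 : ℝ) : ℂ) * piD (Θ + cf (zw n ω)) e ^ 2) *
        piG o n (cell L T) (Θ + cf (zw n ω)) *
        Complex.exp (∑ e ∈ crs n (cell L T), ((((typ s e.1 : ℝ) - 1) * o.gam * o.η / 4 : ℝ) : ℂ) *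
          piD (Θ + cf (zw n ω)) e ^ 2) *
        if spec m {T} then Et z t (pJ o n (under L {T}) δ ω) else 1) := by
  have hΞ : (fun p => Θ p + zw n ω p + if p ∈ inn n then
      Complex.I * o.rho n (under L {T}) δ ω p / 16 else 0 : Fld) = Θ + cf (zw n ω) := by
    funext p
    by_cases hp : p ∈ inn n
    · simp [hp, hρ p hp, cf]
    · simp [hp, cf]
  have h0 : ∑ p ∈ inn n, (-((o.rho n (under L {T}) δ ω p ^ 2 / 32 : ℝ) : ℂ) + Complex.I *
      o.rho n (under L {T}) δ ω p *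
        (Θ p - (∑ y ∈ refs n L m {T}, Θ y) / (refs n L m {T}).card)) = 0 :=
    sum_eq_zero fun p hp => by simp [hρ p hp]
  unfold Mod.wt
  simp only []
  rw [hΞ, h0, Complex.exp_zero, mul_one, Complex.exp_sum, Complex.exp_sum, Complex.exp_sum,
    prod_mul_distrib, pJ]
  have h1 : ∏ e ∈ (hes n).filter (fun e => e.1 ∈ under L {T}),
      (Complex.exp (-(o.η / 4 : ℝ) * dg (Θ + cf (zw n ω)) e.1 e.2 ^ 2) * (1 + o.eh : ℝ) *
        if ω (e.2.val, e.1) = 0 then o.hl (dg (Θ + cf (zw n ω)) e.1 e.2) else 1) =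
      (∏ e ∈ piA n (cell L T), Complex.exp (-((o.η / 4 : ℝ) : ℂ) * piD (Θ + cf (zw n ω)) e ^ 2)) *
        piG o n (cell L T) (Θ + cf (zw n ω)) := by
    rw [piG, ← prod_mul_distrib, pi_under]
    refine prod_congr rfl fun e he => ?_
    rw [if_pos (hω e (mem_filter.1 he).1 (mem_filter.1 he).2), mul_assoc]
    rfl
  rw [h1]
  simp only [pi_under, pw, Complex.ofReal_prod, piD, exc, Option.map_some, Option.getD_some]
  ring

end Pool.Agent.Lib.MP_9cc147_pr.Cx
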