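import Pool.Agent.Lib.MP_9cc147_pr.Cx.P.S

/-! The bound on the activity of a bad component at scale 0. -/

open scoped Classical Topology
open Finset MeasureTheory ProbabilityTheory Filter

noncomputable section
namespace Pool.Agent.Lib.MP_9cc147_pr.Cx

theorem pkn_cell {L : ℕ} (hL : 1 ≤ L) {x B : P} (h : x ∈ cell L B) : par L x = B := by
  have hL' : (0 : ℤ) < L := by exact_mod_cast hL
  simp only [cell, mem_product, mem_Ico] at h
  obtain ⟨⟨h1, h2⟩, h3, h4⟩ := h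
  refine Prod.ext ?_ ?_
  · exact le_antisymm (Int.lt_add_one_iff.1 ((Int.ediv_lt_iff_lt_mul hL').2 h2))
      ((Int.le_ediv_iff_mul_le hL').2 h1)
  · exact le_antisymm (Int.lt_add_one_iff.1 ((Int.ediv_lt_iff_lt_mul hL').2 h4))
      ((Int.le_ediv_iff_mul_le hL').2 h3)

theorem pkn_disj {L : ℕ} (hL : 1 ≤ L) (X : Finset P) :
    (X : Set P).PairwiseDisjoint (cell L) := fun _ _ _ _ hab =>
  Finset.disjoint_left.2 fun _ h1 h2 => hab ((pkn_cell hL h1).symm.trans (pkn_cell hL h2))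

theorem pkn_sum {L : ℕ} (hL : 1 ≤ L) (X : Finset P) (f : P → ℝ) :
    ∑ x ∈ under L X, f x = ∑ B ∈ X, ∑ x ∈ cell L B, f x := sum_biUnion (pkn_disj hL X)

theorem pkn_fat (L : ℕ) (B : P) : ((fat L 0 B).card : ℝ) = ((L : ℝ) + 1) ^ 2 := by
  have h (a : ℤ) : (Icc (a * L - (0 : ℕ)) ((a + 1) * L + (0 : ℕ))).card = L + 1 := by
    rw [Int.card_Icc]
    have : (a + 1) * L + (0 : ℕ) + 1 - (a * L - (0 : ℕ)) = ((L + 1 : ℕ) : ℤ) := by push_cast; ring
    rw [this, Int.toNat_natCast]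
  rw [fat, card_product, h, h]; push_cast; ring

theorem pkn_V (L : ℕ) (X : Finset P) : ((pV L X).card : ℝ) ≤ ((L : ℝ) + 1) ^ 2 * X.card := by
  have h : ((pV L X).card : ℝ) ≤ ∑ B ∈ X, ((fat L 0 B).card : ℝ) := by
    exact_mod_cast card_biUnion_le
  simpa [pkn_fat, mul_comm] using h

theorem pkn_n1 (v : Fld) (x : P) : 0 ≤ n1 v x := by unfold n1; positivity

theorem pkn_pg {K : ℝ} (hK : 1 ≤ K) (x : ℝ) : (1 + |x|) ^ 2 ≤ pg K x := by
  unfold pg
  split_ifs with h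
  · simp [h]
  · exact le_mul_of_one_le_left (by positivity) hK

theorem pkn_pg1 {K : ℝ} (hK : 1 ≤ K) (x : ℝ) : 1 ≤ pg K x :=
  (one_le_pow₀ (by linarith [abs_nonneg x])).trans (pkn_pg hK x)

theorem pkn_one_add {ι : Type} (s : Finset ι) (f : ι → ℝ) (hf : ∀ i, 0 ≤ f i) :
    1 + ∑ i ∈ s, f i ≤ ∏ i ∈ s, (1 + f i) := by
  induction s using Finset.induction_on with
  | empty => simp
  | insert a s ha ih =>
    rw [sum_insert ha, prod_insert ha]
    have := sum_nonneg fun i (_ : i ∈ s) => hf i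
    nlinarith [hf a, mul_le_mul_of_nonneg_left ih (add_nonneg zero_le_one (hf a))]

/-- the noise majorant of a tile -/
theorem pkn_Y {K : ℝ} (hK : 1 ≤ K) (n L : ℕ) (ω : Om) (X : Finset P) (T : P) :
    (if T ∈ hvy n L ω X then K else 1) *
      (1 + ∑ x ∈ cell L T, ∑ d : Fin 4, |ω (d.val, x)|) ^ 2 ≤ pY K L T ω := by
  have e1 : pY K L T ω = ∏ e ∈ cell L T ×ˢ (univ : Finset (Fin 4)), pg K (ω (e.2.val, e.1)) := by
    rw [pY, prod_product]
  have e2 : (1 + ∑ x ∈ cell L T, ∑ d : Fin 4, |ω (d.val, x)|) ^ 2 ≤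
      ∏ e ∈ cell L T ×ˢ (univ : Finset (Fin 4)), (1 + |ω (e.2.val, e.1)|) ^ 2 := by
    rw [prod_pow, ← sum_product' (f := fun x (d : Fin 4) => |ω (d.val, x)|)]
    exact pow_le_pow_left₀ (by positivity)
      (pkn_one_add _ (fun e : P × Fin 4 => |ω (e.2.val, e.1)|) fun _ => abs_nonneg _) 2
  rw [e1]
  split_ifs with h
  · obtain ⟨e, -, he, hω⟩ := (mem_filter.1 h).2
    have hm : e ∈ cell L T ×ˢ (univ : Finset (Fin 4)) := mem_product.2 ⟨he, mem_univ _⟩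
    refine (mul_le_mul_of_nonneg_left e2 (by linarith)).trans ?_
    rw [← mul_prod_erase _ _ hm, ← mul_prod_erase _ _ hm, ← mul_assoc]
    refine mul_le_mul (by simp [pg, hω]) (prod_le_prod (fun _ _ => by positivity)
      fun _ _ => pkn_pg hK _) (prod_nonneg fun _ _ => by positivity)
      (by linarith [pkn_pg1 hK (ω (e.2.val, e.1))])
  · rw [one_mul]
    exact e2.trans (prod_le_prod (fun _ _ => by positivity) fun _ _ => pkn_pg hK _)

theorem pkn_prod1 {ι : Type} (s : Finset ι) (f : ι → ℝ) (hf : ∀ i, 1 ≤ f i) : 1 ≤ ∏ i ∈ s, f i := by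
  simpa using prod_le_prod (s := s) (f := fun _ => (1 : ℝ)) (fun _ _ => zero_le_one) fun i _ => hf i

theorem pkn_Y1 {K : ℝ} (hK : 1 ≤ K) (L : ℕ) (T : P) (ω : Om) : 1 ≤ pY K L T ω :=
  pkn_prod1 _ _ fun _ => pkn_prod1 _ _ fun _ => pkn_pg1 hK _

/-- the factor of the charge on the arc -/
theorem pkn_J {K : ℝ} (hK : 1 ≤ K) (n L : ℕ) (ω : Om) (X : Finset P) {a Hm J : ℝ} (ha : 0 ≤ a)
    (ha1 : a ≤ 1 / 2) (hH : 0 ≤ Hm) (haH : a * Hm ≤ 1)
    (hJ : |J| ≤ ∑ T ∈ X, (Hm + 2 * ∑ x ∈ cell L T, ∑ d : Fin 4, |ω (d.val, x)|)) :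
    K ^ (hvy n L ω X).card * (1 + a * |J|) ^ 2 ≤ 4 ^ X.card * ∏ T ∈ X, pY K L T ω := by
  set u : P → ℝ := fun T => ∑ x ∈ cell L T, ∑ d : Fin 4, |ω (d.val, x)| with hu
  have u0 (T) : 0 ≤ u T := by simp only [hu]; positivity
  have h1 : 1 + a * |J| ≤ ∏ T ∈ X, (2 * (1 + u T)) := by
    calc 1 + a * |J| ≤ 1 + ∑ T ∈ X, a * (Hm + 2 * u T) := by
          rw [← mul_sum]; gcongr
      _ ≤ ∏ T ∈ X, (1 + a * (Hm + 2 * u T)) :=
          pkn_one_add _ _ fun T => mul_nonneg ha (by linarith [u0 T])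
      _ ≤ _ := prod_le_prod (fun T _ => by have := u0 T; positivity)
          fun T _ => by nlinarith [u0 T]
  have h2 : K ^ (hvy n L ω X).card = ∏ T ∈ X, (if T ∈ hvy n L ω X then K else 1) := by
    rw [prod_ite_mem, prod_const,
      inter_eq_right.2 (show hvy n L ω X ⊆ X from filter_subset _ _)]
  calc K ^ (hvy n L ω X).card * (1 + a * |J|) ^ 2
      ≤ K ^ (hvy n L ω X).card * (∏ T ∈ X, (2 * (1 + u T))) ^ 2 := by gcongr
    _ = ∏ T ∈ X, (4 * ((if T ∈ hvy n L ω X then K else 1) * (1 + u T) ^ 2)) := by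
        rw [h2, ← prod_pow, ← prod_mul_distrib]; exact prod_congr rfl fun _ _ => by ring
    _ ≤ ∏ T ∈ X, (4 * pY K L T ω) := prod_le_prod
        (fun T _ => by have := u0 T; split_ifs <;> positivity)
        fun T _ => mul_le_mul_of_nonneg_left (pkn_Y hK n L ω X T) (by norm_num)
    _ = _ := by rw [prod_mul_distrib, prod_const]

/-- the cost of the vortices -/
theorem pkn_vor (I V V' W : Finset P) (ρ : P → ℝ) {H g c : ℝ} (hc : 0 ≤ c) (hg : 0 ≤ g)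
    (hcg : 128 * c ≤ g ^ 2) (hW : W ⊆ I) (h0 : ∀ p, p ∉ V → ρ p = 0)
    (h1 : ∀ p ∈ W, p ∉ V' → g ≤ |ρ p|) :
    ∑ p ∈ I, (-ρ p ^ 2 / 64 + 2 * H * |ρ p|) ≤
      128 * H ^ 2 * V.card - c * (W.card - V'.card) := by
  have hp (p : P) : -ρ p ^ 2 / 64 + 2 * H * |ρ p| ≤
      (if p ∈ V then 128 * H ^ 2 else 0) - if p ∈ W \ V' then c else 0 := by
    have e : ρ p ^ 2 = |ρ p| ^ 2 := (sq_abs _).symm
    have h2 : (if p ∈ W \ V' then c else 0) ≤ |ρ p| ^ 2 / 128 := by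
      split_ifs with h
      · have := pow_le_pow_left₀ hg (h1 p (mem_sdiff.1 h).1 (mem_sdiff.1 h).2) 2
        linarith
      · positivity
    by_cases h : p ∈ V
    · rw [if_pos h, e]; nlinarith [sq_nonneg (|ρ p| - 128 * H)]
    · rw [if_neg h]; rw [h0 p h] at h2 ⊢; simp at h2 ⊢; linarith
  refine (sum_le_sum fun p _ => hp p).trans ?_
  rw [sum_sub_distrib, sum_ite_mem, sum_ite_mem, sum_const, sum_const, nsmul_eq_mul, nsmul_eq_mul,
    inter_eq_right.2 (sdiff_subset.trans hW)]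
  have a1 : ((I ∩ V).card : ℝ) ≤ V.card := by exact_mod_cast card_le_card inter_subset_right
  have a2 : (W.card : ℝ) ≤ (W \ V').card + V'.card := by exact_mod_cast card_le_card_sdiff_add_card
  nlinarith [mul_le_mul_of_nonneg_left a1 (by positivity : 0 ≤ 128 * H ^ 2),
    mul_le_mul_of_nonneg_left a2 hc]

/-- constant of one tile -/
def pK1 (L : ℕ) (H : ℝ) : ℝ :=
  4 * Real.exp ((L : ℝ) ^ 2 * (20 + 130 * H ^ 2) + 128 * H ^ 2 * ((L : ℝ) + 1) ^ 2)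

theorem pkn_kp (hw : S_p_wt) (hr : S_p_rho) (o : Mod) (L m : ℕ) {κ H K Λ t e : ℝ} (z : ℂ)
    (Θ : Fld) (θ : P → ℝ) (ω : Om) (X : Finset P) (σ : P → Option Lab) (hL : 1 ≤ L) (ho : pSm o)
    (hκ : o.η ≤ κ / 100) (hH : 0 ≤ H) (ht : t ≠ 0) (hX : X ⊆ box m) (hF : pFd (L * m) L H X Θ θ)
    (hz : ‖z‖ ≤ 1 / 2) (hzH : ‖z‖ * pHm o L ≤ 1) (hg : 128 * (20 * Real.log o.r) ≤ o.gap ^ 2)
    (hK : o.r ^ (20 * ((L : ℝ) + 1) ^ 2 + 1) ≤ K) (hΛ : 0 ≤ Λ)
    (hZ : ∑ δ ∈ adm o.R (L * m) L m ω X σ, o.r ^ (-20 * ((vort (L * m) δ).card : ℝ)) ≤ Λ ^ X.card *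
      o.r ^ (nexp (L * m) L X σ - ((X.card : ℝ) - 10 * (hvy (L * m) L ω X).card) / 10 ^ 5 + e)) :
    ‖o.kp (L * m) L m t z Θ ω X σ‖ ≤ (pK1 L H * Λ * o.r ^ (-(1 / 10 ^ 5) : ℝ)) ^ X.card * o.r ^ e *
      (∏ B ∈ X, Real.exp (κ * ∑ x ∈ cell L B, n1 (cf (zw (L * m) ω)) x) * pY K L B ω) *
      Real.exp (κ / 4 * ∑ x ∈ under L X, n1 (cf θ) x) := by
  have hR : (1 : ℝ) ≤ o.R := by exact_mod_cast ho.R1
  have hr1 : 1 ≤ o.r := by unfold Mod.r; linarith
  have hr0 : 0 < o.r := by linarith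
  have hl : 0 ≤ Real.log o.r := Real.log_nonneg hr1
  have hK1 : 1 ≤ K := (Real.one_le_rpow hr1 (by positivity)).trans hK
  have hκ0 : 0 ≤ κ := by linarith [ho.η0]
  have hHm : 0 ≤ pHm o L := by have := ho.gap; unfold pHm; positivity
  set h : ℕ := (hvy (L * m) L ω X).card with hh
  set a := κ / 4 * ∑ x ∈ under L X, n1 (cf θ) x
  set b := ∑ x ∈ under L X, n1 (cf (zw (L * m) ω)) x with hb
  set Y := ∏ T ∈ X, pY K L T ω
  have Y0 : 0 ≤ Y := prod_nonneg fun _ _ => zero_le_one.trans (pkn_Y1 hK1 _ _ _)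
  have b0 : 0 ≤ b := sum_nonneg fun _ _ => pkn_n1 _ _
  set c := 20 * ((L : ℝ) + 1) ^ 2
  have hKh : Real.exp (Real.log o.r * ((c + 1) * h)) ≤ K ^ h := by
    rw [← Real.rpow_def_of_pos hr0, Real.rpow_mul hr0.le, Real.rpow_natCast]
    exact pow_le_pow_left₀ (by positivity) hK h
  have h1 : ∀ δ ∈ adm o.R (L * m) L m ω X σ, ‖o.wt (L * m) L m t z Θ ω X σ δ‖ ≤
      (pK1 L H ^ X.card * Real.exp (a + κ * b - Real.log o.r * h) * Y) *
        o.r ^ (-20 * ((vort (L * m) δ).card : ℝ)) := by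
    intro δ hδ
    have hf : δ ∈ forms o.R (L * m) (under L X) := (mem_filter.1 hδ).1
    obtain ⟨r1, -, r3, r4⟩ := hr o L m X δ ω hL ho.gap hX hf
    have v := pkn_vor (inn (L * m)) (pV L X) (pV L (hvy (L * m) L ω X)) (vort (L * m) δ)
      (o.rho (L * m) (under L X) δ ω) (H := H) (by positivity : 0 ≤ 20 * Real.log o.r) ho.gap hg
      (filter_subset _ _) r1 r3
    have j := pkn_J hK1 (L * m) L ω X (norm_nonneg z) hz hHm hzH r4
    have j' : (1 + ‖z‖ * |pJ o (L * m) (under L X) δ ω|) ^ 2 ≤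
        Real.exp (-(Real.log o.r * ((c + 1) * h))) * (4 ^ X.card * Y) := by
      rw [Real.exp_neg, ← div_eq_inv_mul, le_div_iff₀ (Real.exp_pos _), mul_comm]
      exact (mul_le_mul_of_nonneg_right hKh (by positivity)).trans j
    have v1 := mul_le_mul_of_nonneg_left (pkn_V L X) (by positivity : 0 ≤ 128 * H ^ 2)
    have v2 := mul_le_mul_of_nonneg_left (pkn_V L (hvy (L * m) L ω X))
      (by positivity : 0 ≤ 20 * Real.log o.r)
    refine (hw o L m κ H t z Θ θ ω X σ δ hL ho hκ hH ht hX hf hF).trans ?_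
    refine (mul_le_mul_of_nonneg_left j' (Real.exp_pos _).le).trans ?_
    rw [pK1, mul_pow, ← Real.exp_nat_mul, Real.rpow_def_of_pos hr0, ← mul_assoc, ← Real.exp_add]
    have e1 (u v w : ℝ) : 4 ^ X.card * Real.exp u * Real.exp v * Y * Real.exp w =
        Real.exp (u + v + w) * (4 ^ X.card * Y) := by rw [Real.exp_add, Real.exp_add]; ring
    rw [e1]
    refine mul_le_mul_of_nonneg_right (Real.exp_le_exp.2 ?_) (by positivity)
    simp only [← hh] at v v2 ⊢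
    have b1 := mul_nonneg hκ0 b0
    simp only [c, a, b] at b1 ⊢
    linarith
  have hp : 0 ≤ pK1 L H := by unfold pK1; positivity
  rw [Mod.kp, norm_mul, Complex.norm_real, Real.norm_of_nonneg (Real.rpow_nonneg hr0.le _)]
  refine (mul_le_mul_of_nonneg_left ((norm_sum_le _ _).trans (sum_le_sum h1))
    (Real.rpow_nonneg hr0.le _)).trans ?_
  rw [← mul_sum]
  refine (mul_le_mul_of_nonneg_left (mul_le_mul_of_nonneg_left hZ (by positivity))
    (Real.rpow_nonneg hr0.le _)).trans ?_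
  rw [prod_mul_distrib, ← Real.exp_sum, ← mul_sum, ← pkn_sum hL, ← hb, mul_pow, mul_pow,
    ← Real.rpow_natCast (o.r ^ _), ← Real.rpow_mul hr0.le]
  simp only [Real.rpow_def_of_pos hr0]
  have e2 (u v w : ℝ) : Real.exp u * (pK1 L H ^ X.card * Real.exp v * Y * (Λ ^ X.card * Real.exp w))
      = Real.exp (u + v + w) * (pK1 L H ^ X.card * Λ ^ X.card * Y) := by
    rw [Real.exp_add, Real.exp_add]; ring
  have e3 (u v w x : ℝ) : pK1 L H ^ X.card * Λ ^ X.card * Real.exp u * Real.exp v *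
      (Real.exp w * Y) * Real.exp x
      = Real.exp (u + v + w + x) * (pK1 L H ^ X.card * Λ ^ X.card * Y) := by
    rw [Real.exp_add, Real.exp_add, Real.exp_add]; ring
  rw [e2, e3]
  refine mul_le_mul_of_nonneg_right (Real.exp_le_exp.2 ?_) (by positivity)
  have h0 : (0 : ℝ) ≤ h := Nat.cast_nonneg _
  nlinarith [mul_nonneg hl h0]

end Pool.Agent.Lib.MP_9cc147_pr.Cx
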