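import Pool.Agent.Lib.MP_9cc147_pr.Cx.Cp.Tcp

/-! One edge marginals on a pure tile. -/

open scoped Classical Topology
open Finset Filter

noncomputable section
namespace Pool.Agent.Lib.MP_9cc147_pr.Cx

namespace Cp
variable {o : Mod} {n L : ℕ} {s : Lab} {T : P}

theorem not_isG {R : ℕ} {w : Gp R} (h : nrm w ≤ 1) : ¬ isG w :=
  fun ⟨i, hi, hw⟩ => hw (light h i hi)

theorem Ok.site (h : Ok o) (hn : 2 ≤ n) (hT : cell L T ⊆ box n) {x : P} (hx : x ∈ cell L T)
    (hd : deep 1 n x) (h2 : typ s x = 2) {η : ℝ} (h0 : 0 ≤ η) (h1 : η ≤ 1)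
    (hp : 10 * ((cell L T).card : ℝ) ^ 2 / o.R ≤ η / 4) :
    |∑ a ∈ GN o.R s (cell L T), uw o n a * ((if isG (ex a x) then 1 else 0) - o.gam)| ≤
      η * SG o n s (cell L T) := by
  obtain ⟨-, -, -, -, -, g0, g1⟩ := h.facts
  have all : ∑ a ∈ AL o.R s (cell L T), uw o n a * ((if isG (ex a x) then 1 else 0) - o.gam) = 0 := by
    have e := one_site (ι := cell L T) (fun x => Wk o.R (typ s x))
      (fun x v => o.xw v ^ dgr n x / Zs o (dgr n x) (typ s x)) (fun x => h.nrm1 x) ⟨x, hx⟩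
      fun v => (if isG v then 1 else 0) - o.gam
    have d4 := (dgr_eq (hT hx) hn).2.1 hd
    have e' := h.heavy
    rw [← d4, ← h2] at e'
    rw [sum_congr rfl fun a _ => by rw [h.uw_eq s a, mul_assoc, ex_in a hx], ← mul_sum]
    exact mul_eq_zero_of_right _ (e.trans e')
  rw [← sum_filter_add_sum_filter_not _ Gen] at all
  rw [GN, eq_neg_of_add_eq_zero_left all, abs_neg]
  have b := h.bad (s := s) hT hn
  have s1 := (h.sg (s := s) hT hn).1
  have z0 := h.PZ0 (n := n) (s := s) (cell L T)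
  refine (abs_sum_le_sum_abs _ _).trans ((sum_le_sum fun a _ => ?_).trans (b.trans ?_))
  · rw [abs_mul, abs_of_nonneg (h.uw0 a)]
    refine mul_le_of_le_one_right (h.uw0 a) (abs_le.2 ?_)
    split_ifs <;> constructor <;> linarith
  · have k1 := mul_le_mul_of_nonneg_right hp z0.le
    have k2 : PZ o n s (cell L T) / 4 ≤ SG o n s (cell L T) := by nlinarith
    have k3 := mul_le_mul_of_nonneg_left k2 h0
    linarith

theorem Ok.marg (h : Ok o) (hu : S_uni) (hL : 20 ≤ L) (hn : 2 ≤ n) (hT : cell L T ⊆ box n)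
    (hq : ∀ x ∈ cell L T, ¬ cq n x) (hd : ∀ x ∈ cell L T, deep 1 n x) (h0 : 0 ≤ o.η)
    (h1 : o.η ≤ 1) (hp : 10 * ((cell L T).card : ℝ) ^ 2 / o.R ≤ o.η / 4) : pMarg o n L s T := by
  intro e he
  have e2 := h.sum_pur (s := s) hu hL hT hq fun _ => 1
  simp only [mul_one] at e2
  rw [e2, h.sum_pur hu hL hT hq fun δ =>
    (if isG (δ e) then 1 else 0) - if ptwo L s T e then o.gam else 0]
  have k : ∀ a ∈ GN o.R s (cell L T),
      (isG (fa n (ex a) e) ↔ isG (ex a e.1) ∨ isG (ex a (rev e).1)) := by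
    intro a ha
    rw [fa, if_pos (mem_filter.1 he).1]
    exact (edge o (nrm_edge (mem_filter.1 ha).1 e)).2
  have t := typ_adj s e
  have nl : ∀ a ∈ GN o.R s (cell L T), ∀ x, ¬ (x ∈ cell L T ∧ typ s x = 2) → ¬ isG (ex a x) := by
    intro a ha x hx
    refine not_isG ?_
    by_cases c : x ∈ cell L T
    · have := typ_le s x
      have : typ s x ≠ 2 := fun k => hx ⟨c, k⟩
      rw [nrm_in (mem_filter.1 ha).1 c]
      omega
    · rw [ex_out a c, Pe.nrm_eq_zero.2 rfl]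
      exact Nat.zero_le _
  by_cases c : ptwo L s T e
  · rcases id c with ⟨c1, c2⟩ | ⟨c1, c2⟩
    · rw [sum_congr rfl fun a ha => by
        rw [if_pos c, if_congr ((k a ha).trans
          (or_iff_left (nl a ha _ fun k => by omega))) rfl rfl]]
      exact h.site hn hT c1 (hd _ c1) c2 h0 h1 hp
    · rw [sum_congr rfl fun a ha => by
        rw [if_pos c, if_congr ((k a ha).trans
          (or_iff_right (nl a ha _ fun k => by omega))) rfl rfl]]
      exact h.site hn hT c1 (hd _ c1) c2 h0 h1 hp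
  · rw [sum_eq_zero fun a ha => by
      rw [if_neg c, if_neg fun g => ((k a ha).1 g).elim (nl a ha _ fun k => c (.inl k))
        (nl a ha _ fun k => c (.inr k)), sub_zero, mul_zero], abs_zero]
    exact mul_nonneg h0 (sum_nonneg fun a _ => h.uw0 a)
end Cp

theorem t_p_marg (h_uni : S_uni) : S_p_marg := by
  filter_upwards [fp_L 20] with q hL
  have l20 := hL.2
  refine (Cp.ev_ok q.L (by omega)).mono ?_
  rintro η R g B t ⟨h0, h1, hok⟩ h τ b _ s T hT
  obtain ⟨ok, hp⟩ := hok h τ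
  obtain ⟨c1, c2, c3, c4⟩ := Cp.tile l20 hT
  rw [Cp.n_eq]
  refine ⟨lt_of_lt_of_le (div_pos (Real.rpow_pos_of_pos ok.r0 _) (pow_pos two_pos _))
    (ok.cp_low h_uni l20 c2 c1 ((hp T).trans (by linarith))), fun hd => ?_⟩
  exact ok.marg h_uni l20 c2 c1 (c3 (c4 hd).1) (c4 hd).2 h0.le h1 (hp T)

end Pool.Agent.Lib.MP_9cc147_pr.Cx
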