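import Pool.Agent.Lib.MP_9cc147_pr.Cx.P.S
import Pool.Agent.Lib.MP_9cc147_pr.Cx.H.Band

/-! The heavy part of the noise is small when the band is wide. -/

open scoped Classical Topology
open Finset MeasureTheory ProbabilityTheory Filter

noncomputable section
namespace Pool.Agent.Lib.MP_9cc147_pr.Cx

theorem pmh_int {h : ℝ → ℝ} (hh : IsH h) : Integrable h :=
  Integrable.of_integral_ne_zero (by rw [hh.one]; exact one_ne_zero)

theorem pmh_int4 {h : ℝ → ℝ} (hh : IsH h) : Integrable fun x => (1 + |x|) ^ 4 * h x := by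
  obtain ⟨c, K, hc, hK⟩ := hh.tail
  have hK0 : 0 ≤ K := by
    have := (hh.nonneg 0).trans (hK 0)
    simpa using this
  have hcont := hh.cont
  refine (integrable_inv_one_add_sq.const_mul (K * 4 * (1 + 24 / (c / 3) ^ 4) ^ 3)).mono'
    (Continuous.aestronglyMeasurable (by fun_prop)) (Eventually.of_forall fun x => ?_)
  have h1 := H.tail_le (c := c / 3) (by positivity) x
  have h2 : Real.exp (-c * √|x|) = Real.exp (-(c / 3) * √|x|) ^ 3 := by
    rw [← Real.exp_nat_mul]; congr 1; push_cast; ring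
  have h3 : Real.exp (-c * √|x|) ≤ ((1 + 24 / (c / 3) ^ 4) * (1 + x ^ 2)⁻¹) ^ 3 := by
    rw [h2]; exact pow_le_pow_left₀ (Real.exp_pos _).le h1 3
  have h4 : (1 + |x|) ^ 2 ≤ 2 * (1 + x ^ 2) := by
    rw [← sq_abs x]; nlinarith [sq_nonneg (1 - |x|)]
  have h5 : (1 + |x|) ^ 4 ≤ 4 * (1 + x ^ 2) ^ 2 := by
    calc (1 + |x|) ^ 4 = ((1 + |x|) ^ 2) ^ 2 := by ring
      _ ≤ (2 * (1 + x ^ 2)) ^ 2 := pow_le_pow_left₀ (by positivity) h4 2
      _ = _ := by ring
  have hx : (0 : ℝ) < 1 + x ^ 2 := by positivity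
  rw [Real.norm_eq_abs, abs_of_nonneg (mul_nonneg (by positivity) (hh.nonneg x))]
  calc (1 + |x|) ^ 4 * h x
      ≤ 4 * (1 + x ^ 2) ^ 2 * (K * ((1 + 24 / (c / 3) ^ 4) * (1 + x ^ 2)⁻¹) ^ 3) :=
        mul_le_mul h5 ((hK x).trans (mul_le_mul_of_nonneg_left h3 hK0)) (hh.nonneg x)
          (by positivity)
    _ = _ := by field_simp

/-- the weighted tail of `h` beyond the square root of the band -/
def pmhG (h : ℝ → ℝ) (K B : ℝ) : ℝ → ℝ :=
  {y | √B < |y|}.indicator fun y => K ^ 2 * ((1 + |y|) ^ 4 * h y)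

theorem pmh_ms (a : ℝ) : MeasurableSet {y : ℝ | a < |y|} :=
  measurableSet_lt measurable_const (by fun_prop)

theorem pmh_Gint {h : ℝ → ℝ} (hh : IsH h) (K B : ℝ) : Integrable (pmhG h K B) :=
  ((pmh_int4 hh).const_mul _).indicator (pmh_ms _)

theorem pmh_lim {h : ℝ → ℝ} (hh : IsH h) (K : ℝ) :
    Tendsto (fun B => ∫ y, pmhG h K B y) atTop (𝓝 0) := by
  have := tendsto_integral_filter_of_dominated_convergence (μ := volume) (l := atTop)
    (F := pmhG h K) (f := fun _ => (0 : ℝ)) (fun y => K ^ 2 * ((1 + |y|) ^ 4 * h y))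
    (.of_forall fun B => (pmh_Gint hh K B).aestronglyMeasurable)
    (.of_forall fun B => .of_forall fun y => by
      have h0 : 0 ≤ K ^ 2 * ((1 + |y|) ^ 4 * h y) :=
        mul_nonneg (sq_nonneg _) (mul_nonneg (by positivity) (hh.nonneg y))
      unfold pmhG
      by_cases hy : y ∈ {y : ℝ | √B < |y|}
      · rw [Set.indicator_of_mem hy, Real.norm_eq_abs, abs_of_nonneg h0]
      · rw [Set.indicator_of_notMem hy, norm_zero]; exact h0)
    ((pmh_int4 hh).const_mul _)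
    (.of_forall fun y => by
      refine tendsto_const_nhds.congr' ?_
      filter_upwards [eventually_ge_atTop (y ^ 2)] with B hB
      have : ¬ y ∈ {y : ℝ | √B < |y|} := by
        simp only [Set.mem_ofPred_eq, not_lt]
        exact Real.abs_le_sqrt hB
      unfold pmhG
      rw [Set.indicator_of_notMem this])
  simpa using this

variable {o : Mod}

theorem pmh_hB0 (hh : IsH o.h) (hB : 0 < o.Bw) (x : ℝ) : 0 ≤ o.hB x :=
  mul_nonneg hB.le (hh.nonneg _)

theorem pmh_hBc (hh : IsH o.h) : Continuous o.hB := by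
  have := hh.cont
  unfold Mod.hB; fun_prop

theorem pmh_hBi (hh : IsH o.h) (hB : 0 < o.Bw) : Integrable o.hB :=
  ((pmh_int hh).comp_mul_left' hB.ne').const_mul _

theorem pmh_scale {B : ℝ} (hB : 0 < B) (g : ℝ → ℝ) : ∫ x, B * g (B * x) = ∫ y, g y := by
  rw [integral_const_mul, Measure.integral_comp_mul_left, abs_of_pos (inv_pos.2 hB), smul_eq_mul,
    ← mul_assoc, mul_inv_cancel₀ hB.ne', one_mul]

theorem pmh_hB1 (hh : IsH o.h) (hB : 0 < o.Bw) : ∫ x, o.hB x = 1 := by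
  rw [← hh.one]; exact pmh_scale hB o.h

theorem pmh_eh0 (hh : IsH o.h) (hB : 0 < o.Bw) : 0 ≤ o.eh :=
  integral_nonneg fun x => pmh_hB0 hh hB x

theorem pmh_light (hh : IsH o.h) (hB : 0 < o.Bw) :
    ∫ x in {x | |x| ≤ o.sig0}, o.hB x = 1 - o.eh := by
  have := integral_add_compl (pmh_ms o.sig0) (pmh_hBi hh hB)
  have e : ({y : ℝ | o.sig0 < |y|})ᶜ = {x | |x| ≤ o.sig0} := by ext x; simp
  rw [e, pmh_hB1 hh hB] at this
  unfold Mod.eh; linarith

theorem pmh_eh1 (hh : IsH o.h) (hB : 0 < o.Bw) : o.eh ≤ 1 := by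
  have h1 := pmh_light hh hB
  have h2 : 0 ≤ ∫ x in {x | |x| ≤ o.sig0}, o.hB x := integral_nonneg fun x => pmh_hB0 hh hB x
  linarith

theorem pmh_hl (hh : IsH o.h) (hB : 0 < o.Bw) (y : ℂ) :
    ‖((1 + o.eh : ℝ) : ℂ) * o.hl y - 1‖ ≤ Real.exp (2 * o.eh + o.sig0 * ‖y‖) - 1 := by
  have hms : MeasurableSet {x : ℝ | |x| ≤ o.sig0} := measurableSet_le (by fun_prop) measurable_const
  have hc := pmh_hBc hh
  have e0 := pmh_eh0 hh hB
  have e1 := pmh_eh1 hh hB
  set s := o.sig0 * ‖y‖ with hs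
  have hpt : ∀ x ∈ {x : ℝ | |x| ≤ o.sig0},
      ‖(o.hB x : ℂ) * (Complex.exp (Complex.I * x * y) - 1)‖ ≤ o.hB x * (Real.exp s - 1) := by
    intro x hx
    rw [norm_mul, Complex.norm_real, Real.norm_eq_abs, abs_of_nonneg (pmh_hB0 hh hB x)]
    refine mul_le_mul_of_nonneg_left ?_ (pmh_hB0 hh hB x)
    have h1 := Complex.norm_exp_sub_sum_le_exp_norm_sub_sum (Complex.I * x * y) 1
    simp only [range_one, sum_singleton, pow_zero, Nat.factorial_zero, Nat.cast_one,
      div_one] at h1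
    refine h1.trans (sub_le_sub_right (Real.exp_le_exp.2 ?_) 1)
    rw [norm_mul, norm_mul, Complex.norm_I, one_mul, Complex.norm_real, Real.norm_eq_abs]
    exact mul_le_mul_of_nonneg_right hx (norm_nonneg _)
  have hi0 : IntegrableOn o.hB {x : ℝ | |x| ≤ o.sig0} := (pmh_hBi hh hB).integrableOn
  have hi1 : IntegrableOn (fun x : ℝ => (o.hB x : ℂ) * (Complex.exp (Complex.I * x * y) - 1))
      {x : ℝ | |x| ≤ o.sig0} :=
    (hi0.mul_const (Real.exp s - 1)).mono' (Continuous.aestronglyMeasurable (by fun_prop))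
      ((ae_restrict_iff' hms).2 (.of_forall hpt))
  have hn : ‖∫ x in {x : ℝ | |x| ≤ o.sig0},
      (o.hB x : ℂ) * (Complex.exp (Complex.I * x * y) - 1)‖ ≤ (1 - o.eh) * (Real.exp s - 1) := by
    rw [← pmh_light hh hB, ← integral_mul_const]
    exact norm_integral_le_of_norm_le (hi0.mul_const _) ((ae_restrict_iff' hms).2 (.of_forall hpt))
  have hsum : o.hl y = (∫ x in {x : ℝ | |x| ≤ o.sig0},
      (o.hB x : ℂ) * (Complex.exp (Complex.I * x * y) - 1)) + ((1 - o.eh : ℝ) : ℂ) := by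
    have hi2 : IntegrableOn (fun x : ℝ => (o.hB x : ℂ)) {x : ℝ | |x| ≤ o.sig0} := hi0.ofReal
    rw [← pmh_light hh hB, ← integral_complex_ofReal, ← integral_add hi1 hi2]
    unfold Mod.hl
    congr 1; ext x; ring
  set D := ∫ x in {x : ℝ | |x| ≤ o.sig0}, (o.hB x : ℂ) * (Complex.exp (Complex.I * x * y) - 1)
  have hs0 : 0 ≤ s := mul_nonneg (inv_nonneg.2 (Real.sqrt_nonneg _)) (norm_nonneg _)
  have h1 : 1 ≤ Real.exp s := Real.one_le_exp hs0
  have h2 := Real.add_one_le_exp (2 * o.eh)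
  have e : ((1 + o.eh : ℝ) : ℂ) * o.hl y - 1 = ((1 + o.eh : ℝ) : ℂ) * D - ((o.eh ^ 2 : ℝ) : ℂ) := by
    rw [hsum]; push_cast; ring
  rw [e, Real.exp_add]
  refine (norm_sub_le _ _).trans ?_
  rw [norm_mul, Complex.norm_real, Complex.norm_real, Real.norm_eq_abs, Real.norm_eq_abs,
    abs_of_nonneg (by linarith), abs_of_nonneg (sq_nonneg _)]
  have h3 : (1 + o.eh) * ‖D‖ ≤ (1 + o.eh) * ((1 - o.eh) * (Real.exp s - 1)) :=
    mul_le_mul_of_nonneg_left hn (by linarith)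
  have h4 : (2 * o.eh + 1) * Real.exp s ≤ Real.exp (2 * o.eh) * Real.exp s :=
    mul_le_mul_of_nonneg_right h2 (by linarith)
  nlinarith [mul_nonneg (sq_nonneg o.eh) (sub_nonneg.2 h1), mul_nonneg e0 (sub_nonneg.2 h1),
    mul_nonneg e0 (sub_nonneg.2 e1)]

theorem pmh_prob (hh : IsH o.h) (hB : 0 < o.Bw) : IsProbabilityMeasure o.mh := by
  constructor
  have e0 := pmh_eh0 hh hB
  have h1 : ∫⁻ x in {x | o.sig0 < |x|}, ENNReal.ofReal (o.hB x) = ENNReal.ofReal o.eh :=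
    (ofReal_integral_eq_lintegral_ofReal (pmh_hBi hh hB).integrableOn
      (.of_forall fun x => pmh_hB0 hh hB x)).symm
  unfold Mod.mh
  rw [Measure.smul_apply, Measure.add_apply, withDensity_apply _ MeasurableSet.univ,
    Measure.restrict_univ, h1, measure_univ, smul_eq_mul, ← ENNReal.ofReal_one,
    ← ENNReal.ofReal_add zero_le_one e0, ENNReal.ofReal_one]
  exact ENNReal.inv_mul_cancel (by simp; linarith) ENNReal.ofReal_ne_top

theorem pmh_pgm (K : ℝ) : Measurable fun x => pg K x ^ 2 := by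
  refine Measurable.pow_const ?_ 2
  unfold pg
  exact Measurable.ite (measurableSet_singleton (0 : ℝ)) measurable_const (by fun_prop)

theorem pmh_dom (hh : IsH o.h) (hB : 1 ≤ o.Bw) (K : ℝ) {x : ℝ} (hx : o.sig0 < |x|) :
    o.hB x * pg K x ^ 2 ≤ o.Bw * pmhG o.h K o.Bw (o.Bw * x) := by
  have hB0 : 0 < o.Bw := by linarith
  have hq : 0 < √o.Bw := Real.sqrt_pos.2 hB0
  have hx0 : x ≠ 0 := by
    rintro rfl
    have : 0 < o.sig0 := inv_pos.2 hq
    simp at hx; linarith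
  have hab : |o.Bw * x| = o.Bw * |x| := by rw [abs_mul, abs_of_pos hB0]
  have hm : o.Bw * x ∈ {y : ℝ | √o.Bw < |y|} := by
    simp only [Set.mem_ofPred_eq, hab]
    have h1 : o.Bw * o.sig0 = √o.Bw := by
      unfold Mod.sig0
      rw [← div_eq_mul_inv, Real.div_sqrt]
    rw [← h1]; exact mul_lt_mul_of_pos_left hx hB0
  unfold pmhG pg Mod.hB
  rw [Set.indicator_of_mem hm, if_neg hx0, hab, mul_assoc]
  refine mul_le_mul_of_nonneg_left ?_ hB0.le
  have h2 : (1 + |x|) ^ 4 ≤ (1 + o.Bw * |x|) ^ 4 :=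
    pow_le_pow_left₀ (by positivity) (by nlinarith [abs_nonneg x]) 4
  have h3 := hh.nonneg (o.Bw * x)
  calc o.h (o.Bw * x) * (K * (1 + |x|) ^ 2) ^ 2 = K ^ 2 * ((1 + |x|) ^ 4 * o.h (o.Bw * x)) := by ring
    _ ≤ _ := mul_le_mul_of_nonneg_left (mul_le_mul_of_nonneg_right h2 h3) (sq_nonneg _)

theorem pmh_heavy (hh : IsH o.h) (hB : 1 ≤ o.Bw) (K : ℝ) :
    IntegrableOn (fun x => o.hB x * pg K x ^ 2) {x | o.sig0 < |x|} ∧
      ∫ x in {x | o.sig0 < |x|}, o.hB x * pg K x ^ 2 ≤ ∫ y, pmhG o.h K o.Bw y := by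
  have hB0 : 0 < o.Bw := by linarith
  have hg : Integrable fun x => o.Bw * pmhG o.h K o.Bw (o.Bw * x) :=
    ((pmh_Gint hh K _).comp_mul_left' hB0.ne').const_mul _
  have hi : IntegrableOn (fun x => o.hB x * pg K x ^ 2) {x | o.sig0 < |x|} := by
    refine hg.integrableOn.mono'
      ((pmh_hBc hh).measurable.mul (pmh_pgm K)).aestronglyMeasurable
      ((ae_restrict_iff' (pmh_ms _)).2 (.of_forall fun x hx => ?_))
    rw [Real.norm_eq_abs, abs_of_nonneg (mul_nonneg (pmh_hB0 hh hB0 x) (sq_nonneg _))]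
    exact pmh_dom hh hB K hx
  refine ⟨hi, ?_⟩
  rw [← pmh_scale hB0 (pmhG o.h K o.Bw)]
  refine (setIntegral_mono_on hi hg.integrableOn (pmh_ms _) fun x hx => pmh_dom hh hB K hx).trans
    (setIntegral_le_integral hg (.of_forall fun x => mul_nonneg hB0.le ?_))
  exact Set.indicator_nonneg
    (fun y _ => mul_nonneg (sq_nonneg _) (mul_nonneg (by positivity) (hh.nonneg y))) _

theorem t_p_mh : S_p_mh := by
  intro h hh K ε hK hε
  have hs : Tendsto (fun B : ℝ => (√B)⁻¹) atTop (𝓝 0) :=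
    tendsto_inv_atTop_zero.comp Real.tendsto_sqrt_atTop
  filter_upwards [eventually_ge_atTop 1, (pmh_lim hh K).eventually_le_const hε,
    hs.eventually_le_const hε] with B h1 h2 h3 o hoh hoB
  subst hoh hoB
  have hB0 : 0 < o.Bw := by linarith
  obtain ⟨hi, hle⟩ := pmh_heavy hh h1 K
  have e0 := pmh_eh0 hh hB0
  have hpg : ∀ x, 1 ≤ pg K x ^ 2 := by
    intro x
    refine one_le_pow₀ ?_
    unfold pg
    split_ifs
    · exact le_rfl
    · exact one_le_mul_of_one_le_of_one_le hK (one_le_pow₀ (by linarith [abs_nonneg x]))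
  have he : o.eh ≤ ∫ x in {x | o.sig0 < |x|}, o.hB x * pg K x ^ 2 :=
    integral_mono (pmh_hBi hh hB0).integrableOn hi fun x =>
      le_mul_of_one_le_right (pmh_hB0 hh hB0 x) (hpg x)
  have hmd : Measurable fun x => ENNReal.ofReal (o.hB x) := (pmh_hBc hh).measurable.ennreal_ofReal
  have hfin : ∀ᵐ x ∂(volume.restrict {x | o.sig0 < |x|}), ENNReal.ofReal (o.hB x) < ⊤ :=
    .of_forall fun _ => ENNReal.ofReal_lt_top
  have hfun : (fun x => (ENNReal.ofReal (o.hB x)).toReal • pg K x ^ 2) =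
      fun x => o.hB x * pg K x ^ 2 := by
    ext x; rw [ENNReal.toReal_ofReal (pmh_hB0 hh hB0 x), smul_eq_mul]
  have i1 : Integrable (fun x => pg K x ^ 2) (Measure.dirac (0 : ℝ)) :=
    integrable_dirac (by simp)
  have i2 : Integrable (fun x => pg K x ^ 2)
      ((volume.restrict {x | o.sig0 < |x|}).withDensity fun x => ENNReal.ofReal (o.hB x)) := by
    rw [integrable_withDensity_iff_integrable_smul' hmd hfin, hfun]; exact hi
  refine ⟨e0, he.trans (hle.trans h2), inv_nonneg.2 (Real.sqrt_nonneg _), h3, pmh_hl hh hB0,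
    pmh_prob hh hB0, (i1.add_measure i2).smul_measure (by simp; linarith), ?_⟩
  unfold Mod.mh
  rw [integral_smul_measure, integral_add_measure i1 i2, integral_dirac,
    integral_withDensity_eq_integral_toReal_smul hmd hfin, hfun, ENNReal.toReal_inv,
    ENNReal.toReal_ofReal (by linarith), smul_eq_mul]
  have hp0 : pg K 0 ^ 2 = 1 := by simp [pg]
  rw [hp0]
  have h5 : (1 + o.eh)⁻¹ ≤ 1 := inv_le_one_of_one_le₀ (by linarith)
  refine (mul_le_of_le_one_left (by linarith) h5).trans (by linarith)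

end Pool.Agent.Lib.MP_9cc147_pr.Cx
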