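import Pool.Agent.Lib.MP_9cc147_pr.Cx.P.S
import Pool.Agent.Lib.MP_9cc147_pr.Cx.B.Geo
import Pool.Agent.Lib.MP_9cc147_pr.Cx.Pe.Bas

/-! The charges of a configuration at scale 0. -/

open scoped Classical
open Finset

noncomputable section
namespace Pool.Agent.Lib.MP_9cc147_pr.Cx

theorem prho_base : ∀ (k : ℕ) (w : Fin k → ℤ), (∀ i, |w i| ≤ 8) →
    ∑ i, 20 ^ i.val * w i = 0 → w = 0
  | 0, w, _, _ => funext fun i => i.elim0
  | k + 1, w, h, e => by
    have e1 : ∑ i : Fin k, 20 ^ (i.succ).val * w i.succ = 20 * ∑ i : Fin k, 20 ^ i.val * w i.succ := by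
      rw [mul_sum]
      exact sum_congr rfl fun i _ => by rw [Fin.val_succ]; ring
    rw [Fin.sum_univ_succ, e1, Fin.val_zero, pow_zero, one_mul] at e
    have h0 := abs_le.1 (h 0)
    have := prho_base k (fun i => w i.succ) (fun i => h _) (by omega)
    exact funext fun i => Fin.cases (by change w 0 = 0; omega) (fun i => congrFun this i) i

/-- a sum of curls as a sum over oriented edges -/
theorem prho_sum {E : Finset (P × Fin 4)} {f : P × Fin 4 → ℝ} (hf : ∀ e, e ∉ E → f e = 0)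
    (A : Finset P) :
    ∑ p ∈ A, curl f p = ∑ e ∈ E.filter (fun e => e.1 + crn (e.2 + 1) ∈ A), f e := by
  simp only [curl]
  rw [← sum_product' (f := fun p d => f (p - crn (d + 1), d)),
    ← sum_filter_of_ne (s := A ×ˢ univ) (f := fun x : P × Fin 4 => f (x.1 - crn (x.2 + 1), x.2))
      (p := fun x : P × Fin 4 => (x.1 - crn (x.2 + 1), x.2) ∈ E)
      fun x _ h => by_contra fun k => h (hf _ k)]
  refine sum_nbij' (fun x => (x.1 - crn (x.2 + 1), x.2)) (fun e => (e.1 + crn (e.2 + 1), e.2))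
    (fun x hx => ?_) (fun e he => ?_) (fun x _ => by simp) (fun e _ => by simp) fun _ _ => rfl
  · have := mem_filter.1 hx
    exact mem_filter.2 ⟨this.2, by simpa using (mem_product.1 this.1).1⟩
  · have := mem_filter.1 he
    exact mem_filter.2 ⟨mem_product.2 ⟨this.2, mem_univ _⟩, by simpa using this.1⟩

theorem prho_he_rev {n : ℕ} {S : Finset P} {e : P × Fin 4} (h : e ∈ he n S) : rev e ∈ he n S := by
  rw [he, mem_filter] at h ⊢
  rw [bp_hes_rev, bp_rev_rev]
  exact ⟨h.1, h.2.symm⟩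

theorem prho_anti {n : ℕ} {S : Finset P} {f : P × Fin 4 → ℝ} (hf : ∀ e, f (rev e) = -f e) :
    ∑ e ∈ he n S, f e = 0 := by
  have : ∑ e ∈ he n S, f e = ∑ e ∈ he n S, f (rev e) :=
    sum_nbij' rev rev (fun _ => prho_he_rev) (fun _ => prho_he_rev) (fun e _ => bp_rev_rev e)
      (fun e _ => bp_rev_rev e) fun e _ => by rw [bp_rev_rev]
  simp only [hf, sum_neg_distrib] at this
  linarith

theorem prho_xi0 {n : ℕ} {S : Finset P} (ω : Om) {e : P × Fin 4} (h : e ∉ he n S) :
    Mod.xi n S ω e = 0 := by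
  rw [he, mem_filter, not_and, not_or] at h
  rw [Mod.xi]
  split_ifs with h1 h2 h3 h3
  · exact ((h h1).1 h2).elim
  · exact ((h h1).1 h2).elim
  · exact ((h h1).2 h3).elim
  · exact sub_zero _
  · rfl

theorem prho_xi_rev (n : ℕ) (S : Finset P) (ω : Om) (e : P × Fin 4) :
    Mod.xi n S ω (rev e) = -Mod.xi n S ω e := by
  simp only [Mod.xi, bp_hes_rev, bp_rev_rev]
  by_cases h : e ∈ hes n
  · rw [if_pos h, if_pos h, neg_sub]
  · rw [if_neg h, if_neg h, neg_zero]

theorem prho_H_curl (o : Mod) (δ : Form o.R) (p : P) :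
    o.H (curl δ p) = curl (fun e => o.H (δ e)) p := by
  simp only [Mod.H, curl, Finset.sum_apply, Int.cast_sum, mul_sum]
  exact sum_comm

theorem prho_ent {R n : ℕ} {S : Finset P} {δ : Form R} (h : δ ∈ forms R n S) (p : P)
    (i : Fin (ng R)) : |curl δ p i| ≤ 8 := by
  have k := Pe.mem_cfgs.1 (mem_filter.1 h).1
  have : ∀ e, |δ e i| ≤ 2 := fun e => by
    by_cases he : e ∈ he n S
    · have : δ e ∈ Fintype.piFinset fun _ => Icc (-2 : ℤ) 2 := by
        have := k.1 e he
        simp only [Wl, Wk, mem_union, mem_filter] at this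
        tauto
      exact abs_le.2 (mem_Icc.1 (Fintype.mem_piFinset.1 this i))
    · simp [k.2 e he]
  rw [curl, Finset.sum_apply]
  refine (abs_sum_le_sum_abs _ _).trans ((sum_le_sum fun d _ => this _).trans ?_)
  simp

theorem prho_out {L n : ℕ} (hL : 1 ≤ L) {X : Finset P} {p : P} (hp : p ∉ pV L X) (d : Fin 4) :
    (p - crn (d + 1), d) ∉ he n (under L X) := fun h =>
  hp (by have := (bp_ends hL (mem_filter.1 h).2).2; rwa [sub_add_cancel] at this)

theorem prho_noise (n : ℕ) (S : Finset P) (ω : Om) :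
    ∑ e ∈ hes n, |Mod.xi n S ω e| ≤ 2 * ∑ x ∈ S, ∑ d : Fin 4, |ω (d.val, x)| := by
  have h1 : ∑ e ∈ hes n, |if e.1 ∈ S then ω (e.2.val, e.1) else 0| ≤
      ∑ x ∈ S, ∑ d : Fin 4, |ω (d.val, x)| := by
    rw [← sum_product' (f := fun (x : P) (d : Fin 4) => |ω (d.val, x)|)]
    simp only [apply_ite abs, abs_zero]
    rw [← sum_filter]
    exact sum_le_sum_of_subset_of_nonneg
      (fun e he => mem_product.2 ⟨(mem_filter.1 he).2, mem_univ _⟩) fun _ _ _ => abs_nonneg _
  have h2 : ∑ e ∈ hes n, |if (rev e).1 ∈ S then ω ((rev e).2.val, (rev e).1) else 0| =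
      ∑ e ∈ hes n, |if e.1 ∈ S then ω (e.2.val, e.1) else 0| :=
    sum_nbij' rev rev (fun e => (bp_hes_rev n e).2) (fun e => (bp_hes_rev n e).2)
      (fun e _ => bp_rev_rev e) (fun e _ => bp_rev_rev e) fun _ _ => rfl
  refine (sum_le_sum fun e he => (congrArg abs (if_pos he)).le.trans (abs_sub _ _)).trans ?_
  rw [sum_add_distrib, h2]
  linarith

theorem prho_fat (L : ℕ) (T : P) : (fat L 0 T).card = (L + 1) ^ 2 := by
  have h : ∀ b : ℤ, ((b + 1) * L + (0 : ℕ) + 1 - (b * L - (0 : ℕ))).toNat = L + 1 := fun b => by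
    rw [show (b + 1) * (L : ℤ) + (0 : ℕ) + 1 - (b * L - (0 : ℕ)) = (L + 1 : ℕ) by push_cast; ring]
    exact Int.toNat_natCast _
  rw [fat, card_product, Int.card_Icc, Int.card_Icc, h, h, sq]

theorem t_p_rho : S_p_rho := by
  intro o L m X δ ω hL hg hX hδ
  have k := (Pe.mem_cfgs.1 (mem_filter.1 hδ).1).2
  have H0 : o.H 0 = 0 := by simp [Mod.H]
  have c0 : ∀ p, p ∉ pV L X → curl δ p = 0 := fun p hp =>
    sum_eq_zero fun d _ => k _ (prho_out hL hp d)
  refine ⟨fun p hp => ?_, fun h => ?_, fun p hp hv => ?_, ?_⟩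
  · rw [Mod.rho, c0 p hp, H0, zero_add]
    exact sum_eq_zero fun d _ => prho_xi0 ω (prho_out hL hp d)
  · have f : ∀ e ∈ he (L * m) (under L X), e.1 + crn (e.2 + 1) ∈ inn (L * m) := fun e he => by
      have := h _ (bp_ends hL (mem_filter.1 he).2).2
      rw [ring, mem_sdiff, not_and, not_not] at this
      exact this (bp_sqr (d := e.2 + 1) (by simpa using ((bp_hes _ e).1 (mem_filter.1 he).1).1))
    simp only [Mod.rho, prho_H_curl, sum_add_distrib]
    rw [prho_sum (E := he (L * m) (under L X)) fun e he => by rw [k e he, H0],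
      prho_sum fun e he => prho_xi0 ω he, filter_true_of_mem f, prho_anti (prho_xi_rev _ _ ω),
      prho_anti fun e => by rw [(mem_filter.1 hδ).2.1 e]; simp [Mod.H], add_zero]
  · have z : ∀ e ∈ hes (L * m), e.1 + crn e.2 = p ∨ e.1 + crn (e.2 + 1) = p →
        (if e.1 ∈ under L X then ω (e.2.val, e.1) else 0) = 0 := fun e he h => by
      refine ite_eq_right_iff.2 fun h1 => by_contra fun h2 => hv ?_
      have := bp_ends hL (X := hvy (L * m) L ω X) (e := e) (.inl ((bp_under hL _ _).2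
        (mem_filter.2 ⟨(bp_under hL _ _).1 h1, e, he, (bp_cell hL _ _).2 rfl, h2⟩)))
      rcases h with h | h
      · exact h ▸ this.1
      · exact h ▸ this.2
    have x0 : curl (Mod.xi (L * m) (under L X) ω) p = 0 := sum_eq_zero fun d _ => by
      refine ite_eq_right_iff.2 fun he => ?_
      rw [z _ he (.inr (by simp)), z _ ((bp_hes_rev _ _).2 he) (.inl (by simp [(bp_rev_crn _).1])),
        sub_zero]
    have n0 : ∑ i, 20 ^ i.val * curl δ p i ≠ 0 := fun e =>
      (mem_filter.1 hp).2 (prho_base _ _ (prho_ent hδ p) e)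
    have n1 : (1 : ℝ) ≤ |∑ i, 20 ^ i.val * (curl δ p i : ℝ)| := by
      exact_mod_cast Int.one_le_abs n0
    rw [Mod.rho, x0, add_zero, Mod.H, abs_mul, abs_of_nonneg hg]
    exact le_mul_of_one_le_right hg n1
  · obtain ⟨h, hh⟩ : ∃ h, h = o.gap * ∑ i : Fin (ng o.R), (20 : ℝ) ^ i.val * 8 := ⟨_, rfl⟩
    have h0 : 0 ≤ h := hh ▸ mul_nonneg hg (sum_nonneg fun i _ => by positivity)
    have b1 : ∀ p, |o.H (curl δ p)| ≤ h := fun p => by
      rw [Mod.H, abs_mul, abs_of_nonneg hg, hh]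
      refine mul_le_mul_of_nonneg_left ((abs_sum_le_sum_abs _ _).trans (sum_le_sum fun i _ => ?_)) hg
      rw [abs_mul, abs_of_nonneg (by positivity)]
      exact mul_le_mul_of_nonneg_left (by exact_mod_cast prho_ent hδ p i) (by positivity)
    have b2 : ∀ A : Finset P, |∑ p ∈ A, o.H (curl δ p)| ≤ ∑ T ∈ X, pHm o L := fun A => by
      rw [← sum_filter_of_ne (p := fun p => p ∈ pV L X)
        fun p _ h => by_contra fun k => h (by rw [c0 p k, H0])]
      refine (abs_sum_le_sum_abs _ _).trans ((sum_le_sum fun p _ => b1 p).trans ?_)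
      have : ((A.filter fun p => p ∈ pV L X).card : ℝ) ≤ X.card * ((L : ℝ) + 1) ^ 2 := by
        have := (card_le_card fun p hp => (mem_filter.1 hp).2 :
          (A.filter fun p => p ∈ pV L X).card ≤ (pV L X).card).trans card_biUnion_le
        simp only [prho_fat, sum_const, smul_eq_mul] at this
        exact_mod_cast this
      rw [sum_const, sum_const, nsmul_eq_mul, nsmul_eq_mul, pHm, ← hh, ← mul_assoc]
      exact mul_le_mul_of_nonneg_right this h0
    have b3 : ∀ A : Finset P, |∑ p ∈ A, curl (Mod.xi (L * m) (under L X) ω) p| ≤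
        ∑ T ∈ X, 2 * ∑ x ∈ cell L T, ∑ d : Fin 4, |ω (d.val, x)| := fun A => by
      rw [prho_sum (E := hes (L * m)) (f := Mod.xi (L * m) (under L X) ω) fun e he => if_neg he,
        ← mul_sum, ← sum_biUnion
        fun T _ T' _ h => disjoint_left.2 fun x h1 h2 =>
          h (((bp_cell hL _ _).1 h1).symm.trans ((bp_cell hL _ _).1 h2))]
      exact (abs_sum_le_sum_abs _ _).trans ((sum_le_sum_of_subset_of_nonneg (filter_subset _ _)
        fun _ _ _ => abs_nonneg _).trans (prho_noise _ _ ω))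
    simp only [pJ, Mod.rho, sum_add_distrib]
    exact (abs_add_le _ _).trans (add_le_add (b2 _) (b3 _))

theorem t_p_pur (h : S_p_rho) : S_p_pur := by
  intro o L m T s ω hL hg hT
  refine ⟨fun hv => eq_empty_of_forall_notMem fun δ hδ => ?_, fun hv => ?_⟩
  · obtain ⟨e, he, h1, h2⟩ := (mem_filter.1 hv).2
    obtain ⟨a, ha, -⟩ := (mem_filter.1 hδ).2
    exact h2 ((ha.1 T (mem_singleton_self T)).2.2 e he h1)
  have z : ∀ e ∈ hes (L * m), e.1 ∈ cell L T → ω (e.2.val, e.1) = 0 := fun e he h1 =>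
    by_contra fun h2 => hv (mem_filter.2 ⟨mem_singleton_self T, e, he, h1, h2⟩)
  have x0 : ∀ ω : Om, (∀ e ∈ hes (L * m), e.1 ∈ cell L T → ω (e.2.val, e.1) = 0) →
      Mod.xi (L * m) (under L {T}) ω = 0 := fun ω z => funext fun e => by
    refine ite_eq_right_iff.2 fun he => ?_
    rw [bp_under1, ite_eq_right_iff.2 (z e he), ite_eq_right_iff.2 (z _ ((bp_hes_rev _ _).2 he)),
      sub_zero]
  refine ⟨filter_congr fun δ _ => exists_congr fun a => and_congr_left' (and_congr_left' ?_),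
    fun δ hδ => ⟨fun p hp => ?_, ?_⟩⟩
  · simp only [mem_singleton, forall_eq, pure]
    exact and_congr_right' (and_congr_right' ⟨fun _ _ _ _ => rfl, fun _ => z⟩)
  · obtain ⟨f, a, ⟨-, g1⟩, g2⟩ := mem_filter.1 hδ
    rw [bp_under1] at g1
    have g : ∀ e ∈ hes (L * m), δ e = (if (rev e).1 ∈ cell L T then a (rev e).1 else 0) -
        if e.1 ∈ cell L T then a e.1 else 0 := fun e he => by
      split_ifs with h1 h2 h2
      · exact g1 e he h2 h1
      · have := g2 _ ((bp_hes_rev _ _).2 he) h1 (by rwa [bp_rev_rev])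
        rw [(mem_filter.1 f).2.1 e] at this
        rw [neg_injective this, sub_zero]
      · rw [g2 e he h2 h1, zero_sub]
      · rw [(Pe.mem_cfgs.1 (mem_filter.1 f).1).2 e fun k => (mem_filter.1 k).2.elim h2 h1, sub_zero]
    have c : curl δ p = 0 := by
      have r : ∀ d : Fin 4, (rev (p - crn (d + 1), d)).1 = p - crn (d + 2) := fun d => by
        fin_cases d <;> simp [rev, dir, crn, Prod.ext_iff] <;> omega
      rw [curl, sum_congr rfl fun d _ => g _ (Pe.curl_mem hp d)]
      simp only [r]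
      rw [sum_sub_distrib, sub_eq_zero]
      exact Fintype.sum_equiv (Equiv.addRight 1) _ _ fun d => by
        simp only [Equiv.coe_addRight, add_assoc]; rfl
    rw [Mod.rho, c, x0 ω z]
    simp [Mod.H, curl]
  · have := (h o L m {T} δ 0 hL hg (singleton_subset_iff.2 hT)
      (by rw [bp_under1]; exact (mem_filter.1 hδ).1)).2.2.2
    simp only [pJ, Mod.rho, x0 0 fun _ _ _ => rfl] at this
    simp only [pJ, Mod.rho, x0 ω z]
    simpa using this

end Pool.Agent.Lib.MP_9cc147_pr.Cx
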