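import Pool.Agent.Lib.MP_9cc147_pr.Cx.P.IB

/-! The bounds at scale 0 from their pieces. -/

open scoped Classical Topology
open Finset MeasureTheory ProbabilityTheory Filter

noncomputable section
namespace Pool.Agent.Lib.MP_9cc147_pr.Cx

theorem ptop_ring {n : ℕ} {θ : P → ℝ} (h : Dir n θ) {p : P} (hp : p ∈ ring n) : θ p = 0 := by
  obtain ⟨x, y⟩ := p
  simp only [ring, sqr, inn, Finset.mem_sdiff, mem_product, mem_Icc, mem_Ioo] at hp
  have : x = 0 ∨ x = n ∨ y = 0 ∨ y = n := by omega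
  rcases this with e | e | e | e <;> subst e
  · have := (h (0, y)).1; simp only [neg_zero] at this; linarith
  · have a := (h (n, y)).1
    have b := (h (-n, y)).2.2.1
    simp only at a b
    rw [show -(n : ℤ) + 2 * n = n by ring] at b; linarith
  · have := (h (x, 0)).2.1; simp only [neg_zero] at this; linarith
  · have a := (h (x, n)).2.1
    have b := (h (x, -n)).2.2.2
    simp only at a b
    rw [show -(n : ℤ) + 2 * n = n by ring] at b; linarith

theorem ptop_Fd {n L : ℕ} {h h' : ℝ} {U X : Finset P} {v : Fld} {θ : P → ℝ} {z : ℂ}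
    (hu : ∀ p, 0 ≤ uu n p ∧ uu n p ≤ 1) (hz : ‖z‖ ≤ 1) (hθ : Dir n θ) (hv : Strip n L h h' U v)
    (hX : X ⊆ U) : pFd n L (1 + h') X (bg n z + cf θ + v) θ := by
  obtain ⟨-, -, c, hc, hb⟩ := hv
  have hs : ∀ p ∈ pV L X, p ∈ nbs L U := by
    intro p hp
    obtain ⟨B, hB, hp⟩ := mem_biUnion.1 hp
    refine mem_biUnion.2 ⟨B, hX hB, ?_⟩
    simp only [nb, fat, mem_product, mem_Icc] at hp ⊢
    omega
  refine ⟨c, fun p hp => ?_, fun p hp hr => ⟨hc ⟨p, mem_inter.2 ⟨hs p hp, hr⟩⟩, ptop_ring hθ hr⟩⟩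
  have e : (bg n z + cf θ + v) p - θ p - c = z * uu n p + (v p - c) := by
    simp only [Pi.add_apply, bg, cf]; ring
  rw [e]
  refine (norm_add_le _ _).trans (add_le_add ?_ (hb p (hs p hp)))
  rw [norm_mul, Complex.norm_real, Real.norm_of_nonneg (hu p).1]
  exact mul_le_one₀ hz (hu p).1 (hu p).2

theorem ptop_cor_sum {L : ℕ} (hL : 1 ≤ L) (n : ℕ) (X : Finset P) (s : Lab) :
    cor n (under L X) s = ∑ B ∈ X, cor n (cell L B) s := by
  simp only [cor, sum_filter]; exact pkn_sum hL X _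

theorem ptop_cor0 (n : ℕ) (S : Finset P) : cor n S 0 = 0 := by simp [cor, typ]

theorem ptop_cor_not {L m : ℕ} (hL : 1 ≤ L) {T : P} (hT : ¬ corner m T) (s : Lab) :
    cor (L * m) (cell L T) s = 0 := by
  refine sum_eq_zero fun x hx => absurd ?_ hT
  obtain ⟨hx, h1, h2⟩ := mem_filter.1 hx
  have hL' : (0 : ℤ) < L := by exact_mod_cast hL
  have e : (((L * m : ℕ) : ℤ) - 1) / L = m - 1 := by
    rw [Int.ediv_eq_iff_of_pos hL']; push_cast; constructor <;> nlinarith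
  rw [← pkn_cell hL hx]
  constructor
  · rcases h1 with h | h
    · left; simp [par, h]
    · right; simp only [par, h, e]
  · rcases h2 with h | h
    · left; simp [par, h]
    · right; simp only [par, h, e]

theorem ptop_cor_le {L m : ℕ} (hm : 2 ≤ m) (T : P) (s : Lab) :
    |cor (L * m) (cell L T) s| ≤ 1 / 4 := by
  have hc : ((cell L T).filter (corner (L * m))).card ≤ 1 := by
    refine card_le_one.2 fun x hx y hy => ?_
    obtain ⟨hx, x1, x2⟩ := mem_filter.1 hx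
    obtain ⟨hy, y1, y2⟩ := mem_filter.1 hy
    simp only [cell, mem_product, mem_Ico, add_mul, one_mul] at hx hy
    have : 2 * L ≤ L * m := by nlinarith
    refine Prod.ext ?_ ?_ <;> omega
  have h (x : P) : |((typ s x : ℝ) - 1) / 4| ≤ 1 / 4 := by
    unfold typ; split_ifs <;> norm_num
  refine (abs_sum_le_sum_abs _ _).trans ((sum_le_sum fun x _ => h x).trans ?_)
  rw [sum_const, nsmul_eq_mul]
  have : (((cell L T).filter (corner (L * m))).card : ℝ) ≤ 1 := by exact_mod_cast hc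
  linarith

theorem ptop_bb {o : Mod} (ho : (o.a, o.x1) ∈ rect) : -1 ≤ o.a ∧ -1 ≤ o.bb := by
  obtain ⟨⟨a1, -⟩, x1, x2⟩ := ho
  simp only at a1 x1 x2
  have x0 : 0 ≤ o.x1 := by linarith
  have h4 : o.x1 ^ 4 ≤ (9 / 10) ^ 4 := pow_le_pow_left₀ x0 x2 4
  have h2 : 0 ≤ o.x2 := Real.rpow_nonneg (by linarith [Real.add_one_le_exp o.a]) _
  refine ⟨by linarith, ?_⟩
  rw [Mod.bb, Real.le_log_iff_exp_le (by positivity)]
  have : Real.exp (-1) ≤ 1 / 2 := by
    rw [Real.exp_neg, one_div]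
    exact inv_anti₀ (by norm_num) (by linarith [Real.add_one_le_exp 1])
  have := pow_nonneg x0 3
  have := pow_nonneg h2 3
  linarith

/-- lower bound of the weight of a pure tile -/
theorem ptop_c {o : Mod} {L m : ℕ} {D : ℝ} (hL : 1 ≤ L) (ho : pSm o) (hD : 0 ≤ D) (s : Lab) (T : P)
    (hc : 0 < o.cp (L * m) L s T)
    (h : if corner m T then
      |Real.log (o.cp (L * m) L s T) - cor (L * m) (cell L T) s * Real.log o.r| ≤ D
    else |Real.log (o.cp (L * m) L s T) - (nbe (L * m) L s T False * o.a +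
      nbe (L * m) L s T True * o.bb)| ≤ o.η) :
    Real.exp (Real.log o.r * cor (L * m) (cell L T) s) ≤
      Real.exp (D + 2 * (L : ℝ) ^ 2 + 1) * o.cp (L * m) L s T := by
  rw [← Real.exp_log hc, ← Real.exp_add, Real.exp_le_exp]
  have l0 : 0 ≤ (L : ℝ) ^ 2 := by positivity
  split_ifs at h with hT
  · linarith [(abs_le.1 h).1]
  · obtain ⟨a1, a2⟩ := ptop_bb ho.τ
    have hn (p : Prop) : (0 : ℝ) ≤ nbe (L * m) L s T p ∧ (nbe (L * m) L s T p : ℝ) ≤ (L : ℝ) ^ 2 :=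
      ⟨Nat.cast_nonneg _, by rw [← pib_card L T]; exact_mod_cast card_filter_le _ _⟩
    rw [ptop_cor_not hL hT]
    nlinarith [(abs_le.1 h).1, ho.η1, hn False, hn True, mul_le_mul_of_nonneg_left a1 (hn False).1,
      mul_le_mul_of_nonneg_left a2 (hn True).1]

theorem ptop_fin {L n : ℕ} (hL : 1 ≤ L) {X : Finset P} (hX : X.Nonempty) {k M D r η A E : ℝ}
    {c y : P → ℝ} (s : Lab) (hr : 0 < r) (hη : 0 ≤ η) (hη1 : η ≤ 1) (hM0 : 0 ≤ M) (hE : 0 ≤ E)
    (hM : M * Real.exp D ≤ η ^ 2 * A⁻¹ ^ 2) (hy : ∀ B, 0 ≤ y B)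
    (hc : ∀ B ∈ X, Real.exp (Real.log r * cor n (cell L B) s) ≤ Real.exp D * c B)
    (hk : k ≤ M ^ X.card * r ^ cor n (under L X) s * (∏ B ∈ X, y B) * E) :
    k ≤ η ^ 2 * A⁻¹ ^ (2 * X.card) * (∏ B ∈ X, c B * y B) * E := by
  have c0 : ∀ B ∈ X, 0 ≤ c B := fun B hB =>
    (mul_nonneg_iff_of_pos_left (Real.exp_pos D)).1 ((Real.exp_pos _).le.trans (hc B hB))
  have p0 := prod_nonneg c0
  have y0 : 0 ≤ ∏ B ∈ X, y B := prod_nonneg fun B _ => hy B
  have h1 : r ^ cor n (under L X) s ≤ Real.exp D ^ X.card * ∏ B ∈ X, c B := by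
    rw [Real.rpow_def_of_pos hr, ptop_cor_sum hL, mul_sum, Real.exp_sum, ← prod_const,
      ← prod_mul_distrib]
    exact prod_le_prod (fun _ _ => (Real.exp_pos _).le) hc
  have h2 : (M * Real.exp D) ^ X.card ≤ η ^ 2 * A⁻¹ ^ (2 * X.card) := by
    refine (pow_le_pow_left₀ (by positivity) hM _).trans ?_
    rw [mul_pow, ← pow_mul A⁻¹, pow_mul A⁻¹]
    exact mul_le_mul_of_nonneg_right (pow_le_of_le_one (sq_nonneg _) (pow_le_one₀ hη hη1)
      (card_pos.2 hX).ne') (by positivity)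
  calc k ≤ M ^ X.card * (Real.exp D ^ X.card * ∏ B ∈ X, c B) * (∏ B ∈ X, y B) * E :=
        hk.trans (by gcongr)
    _ = (M * Real.exp D) ^ X.card * (∏ B ∈ X, c B * y B) * E := by
        rw [mul_pow, prod_mul_distrib]; ring
    _ ≤ _ := by rw [prod_mul_distrib]; gcongr

theorem ptop_evm {p : ℝ → ℕ → ℝ → ℝ → ℝ → Prop} (h : ∀ᶠ η : ℝ in 𝓝[>] 0, ∀ᶠ R : ℕ in atTop,
    ∀ᶠ g : ℝ in atTop, ∀ᶠ B : ℝ in atTop, ∀ᶠ t : ℝ in 𝓝[>] 0, p η R g B t) : EvM p :=
  Eventually.mono h fun _ h => h.mono fun _ h _ => h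

/-- the constants of the model can be chosen -/
theorem ptop_const (hmh : S_p_mh) {h : ℝ → ℝ} (hh : IsH h) (L : ℕ) (hL : 1 ≤ L) {κ : ℝ} (hκ : 0 < κ)
    (M : ℝ) : EvM fun η R gap Bw t0 => t0 ≤ 1 / 2 ∧ ∃ K : ℝ, ∀ τ : rect,
      let o := Mod.mk' η R gap Bw h τ
      pSm o ∧ η ≤ κ / 100 ∧ M * o.r ^ (-(1 / 10 ^ 5) : ℝ) ≤ η ^ 2 ∧
      128 * (20 * Real.log o.r) ≤ gap ^ 2 ∧ o.r ^ (20 * ((L : ℝ) + 1) ^ 2 + 1) ≤ K ∧
      1 ≤ η ^ 2 * K ∧ t0 * pHm o L ≤ η ∧ IsProbabilityMeasure o.mh ∧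
      Integrable (fun x => pg K x ^ 2) o.mh ∧ ∫ x, pg K x ^ 2 ∂o.mh ≤ 1 + 1 / (20 * (L : ℝ) ^ 2) := by
  refine ptop_evm ?_
  filter_upwards [small_ev (by norm_num : (0 : ℝ) < 1 / 100),
    small_ev (by positivity : 0 < κ / 100)] with η ⟨η0, η1⟩ ⟨_, η2⟩
  have t1 : Tendsto (fun R : ℕ => M * (2 * R : ℝ) ^ (-(1 / 10 ^ 5) : ℝ)) atTop (𝓝 (M * 0)) :=
    ((tendsto_rpow_neg_atTop (by norm_num)).comp
      (tendsto_natCast_atTop_atTop.const_mul_atTop (by norm_num))).const_mul M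
  rw [mul_zero] at t1
  filter_upwards [eventually_ge_atTop 1, t1.eventually (ge_mem_nhds (pow_pos η0 2))] with R R1 R2
  filter_upwards [eventually_ge_atTop 1,
    eventually_ge_atTop (128 * (20 * Real.log (2 * R)))] with g g1 g2
  set K : ℝ := (2 * R : ℝ) ^ (20 * ((L : ℝ) + 1) ^ 2 + 1) + 1 / η ^ 2 with hK
  have r0 : (0 : ℝ) ≤ (2 * R : ℝ) ^ (20 * ((L : ℝ) + 1) ^ 2 + 1) := by positivity
  have K2 : 1 ≤ η ^ 2 * K := by
    rw [hK, mul_add, mul_one_div_cancel (by positivity)]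
    exact le_add_of_nonneg_left (by positivity)
  have K1 : 1 ≤ K := by
    by_contra hk
    have a1 := mul_lt_mul_of_pos_left (not_le.1 hk) (pow_pos η0 2)
    have a2 := pow_le_one₀ (n := 2) η0.le (by linarith : η ≤ 1)
    linarith
  have l0 : (0 : ℝ) < L := by exact_mod_cast hL
  filter_upwards [hmh h hh K (min (η ^ 2) (1 / (20 * (L : ℝ) ^ 2))) K1 (by positivity)] with B hB
  set Hm : ℝ := ((L : ℝ) + 1) ^ 2 * (g * ∑ i : Fin (ng R), 20 ^ i.val * 8) with hHm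
  have H0 : 0 ≤ Hm := by positivity
  filter_upwards [small_ev (by norm_num : (0 : ℝ) < 1 / 2),
    small_ev (by positivity : 0 < η / (Hm + 1))] with t ⟨t0, t1⟩ ⟨_, t2⟩
  refine ⟨t1, K, fun τ => ?_⟩
  obtain ⟨b1, b2, b3, b4, b5, b6, b7, b8⟩ := hB (Mod.mk' η R g B h τ) rfl rfl
  refine ⟨⟨η0, η1, R1, by change 0 ≤ g; linarith, τ.2, b1, b2.trans (min_le_left _ _), b3,
    b4.trans (min_le_left _ _), b5⟩, η2, R2, ?_, ?_, K2, ?_, b6, b7,
    b8.trans (by linarith [min_le_right (η ^ 2) (1 / (20 * (L : ℝ) ^ 2))])⟩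
  · change 128 * (20 * Real.log (2 * R)) ≤ g ^ 2
    nlinarith
  · exact le_add_of_nonneg_right (by positivity)
  · change t * Hm ≤ η
    rw [le_div_iff₀ (by positivity)] at t2
    nlinarith

theorem ptop_main (h_u : S_u) (h_zmom : S_zmom) (h_pei : S_pei) (h_cp : S_cp) (hmg : S_p_marg)
    (hrho : S_p_rho) (hpur : S_p_pur) (hmh : S_p_mh) (hyi : S_p_yint) (hwt : S_p_wt)
    (hI1 : S_p_I1) (hI2 : S_p_I2) : S_preB := by
  intro h hh
  obtain ⟨N, hN⟩ := eventually_atTop.1 h_pei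
  obtain ⟨Cu, hu⟩ := h_u
  filter_upwards [fp_L (N + 2), fp_A fun _ => 1, fp_κ (fun _ _ => 1) fun _ _ => one_pos,
    fp_h fun _ _ _ => 0, fp_C fun L _ κ h => 4 * pC0 L κ (1 + L * h), fp_C fun _ _ _ _ => 9,
    h_zmom, h_cp, hmg] with q ⟨_, hL⟩ hA ⟨hκ, _⟩ hh0 hC hC9 hz hcp hm
  obtain ⟨Λ, hΛ, hp⟩ := hN q.L (by omega)
  have L1 : 1 ≤ q.L := by omega
  have lC : 2 ≤ Real.log q.C := by
    rw [Real.le_log_iff_exp_le (by linarith), show (2 : ℝ) = 1 + 1 by norm_num, Real.exp_add]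
    nlinarith [Real.exp_one_lt_d9, Real.exp_pos 1]
  set H : ℝ := 1 + q.L * q.h with hH
  have H0 : 0 ≤ H := by positivity
  set D : ℝ := Real.log q.C / 4 + 2 * (q.L : ℝ) ^ 2 + 1 with hD
  refine ((hcp.and hm).and (ptop_const hmh hh q.L L1 hκ
    (pK1 q.L H * Λ * Real.exp D * q.A ^ 2))).mono ?_
  rintro η R gap Bw t0 ⟨⟨hcp, hm⟩, ht0, K, hK⟩
  refine ⟨by linarith, py q K, fun τ t ht => ?_⟩
  obtain ⟨ho, hη, hM, hg, hK1, hK2, htH, hprob, hi1, hi2⟩ := hK τ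
  replace hcp := hcp h τ
  replace hm := hm h τ
  set o := Mod.mk' η R gap Bw h τ with ho'
  have η0 : 0 < η := ho.η0
  have η1 : η ≤ 1 / 100 := ho.η1
  have hR : (1 : ℝ) ≤ R := by exact_mod_cast ho.R1
  have er : o.r = 2 * R := rfl
  have r1 : 1 ≤ o.r := by rw [er]; linarith
  have r0 : 0 < o.r := by linarith
  have K1 : 1 ≤ K := (Real.one_le_rpow r1 (by positivity)).trans hK1
  have en (b : ℕ × ℕ) : q.n b = q.L * q.m b 0 := by
    simp only [Par.n, Par.m, Nat.sub_zero]; ring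
  have el : q.l 0 = q.L := by simp [Par.l]
  have em (b : ℕ × ℕ) (hb : Par.ok b 0) : q.L ^ 2 ≤ q.m b 0 := by
    obtain ⟨h1, -, h2⟩ := hb
    simp only [Par.m, Nat.sub_zero]
    exact (Nat.pow_le_pow_right L1 (by omega)).trans (Nat.le_mul_of_pos_left _ (by omega))
  have m2 (b : ℕ × ℕ) (hb : Par.ok b 0) : 2 ≤ q.m b 0 := le_trans (by nlinarith) (em b hb)
  have y1 (b B ω) : 0 ≤ py q K b B ω :=
    mul_nonneg (Real.exp_pos _).le (zero_le_one.trans (pkn_Y1 K1 _ _ _))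
  have cl (b : ℕ × ℕ) (hb : Par.ok b 0) (s : Lab) (B : P) (hB : B ∈ box (q.m b 0)) :
      Real.exp (Real.log o.r * cor (q.L * q.m b 0) (cell q.L B) s) ≤
        Real.exp D * o.cp (q.L * q.m b 0) q.L s B := by
    have a := hcp b hb s B hB
    have c := (hm b hb s B hB).1
    rw [en] at a c
    exact ptop_c L1 ho (by linarith) s B c a
  refine ⟨fun s => ?_, fun b s B hb hB => (hm b hb s B hB).1, fun b s B hb hB hc => ?_,
    fun b B ω => le_mul_of_one_le_right (Real.exp_pos _).le (pkn_Y1 K1 _ _ _),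
    fun b S hb hS => hyi q K o.mh b S (by omega) hκ.le K1 hi1 hi2 ((hz b 0 hb).2.2 o.mh S hS),
    fun b z θ U v ω hb hz hθ hU hv => ?_⟩
  · obtain ⟨a0, a1⟩ := pib_lam ho s
    change o.lam0 s ≤ 2 * η at a1
    refine ⟨a0, a1.trans (by gcongr; linarith), ?_⟩
    exact (pow_le_pow_left₀ a0 a1 2).trans (by nlinarith [sq_nonneg η])
  · have a := hcp b hb s B hB
    have a' := hcp b hb 0 B hB
    simp only [if_pos hc, ptop_cor0, zero_mul, sub_zero] at a a'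
    have c := ptop_cor_le (L := q.L) (m2 b hb) B s
    rw [← en] at c
    change Real.exp (|Real.log (o.cp (q.n b) q.L s B / o.cp (q.n b) q.L 0 B)| + 1) ≤ _
    rw [Real.log_div (hm b hb s B hB).1.ne' (hm b hb 0 B hB).1.ne', ← er,
      Real.rpow_def_of_pos r0, ← Real.exp_log (by linarith : 0 < q.C), ← Real.exp_add,
      Real.exp_le_exp]
    have l0 := Real.log_nonneg r1
    have c1 := mul_le_mul_of_nonneg_right (abs_le.1 c).1 l0
    have c2 := mul_le_mul_of_nonneg_right (abs_le.1 c).2 l0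
    have : |Real.log (o.cp (q.n b) q.L s B) - Real.log (o.cp (q.n b) q.L 0 B)| ≤
        Real.log q.C / 2 + Real.log o.r * (1 / 4) :=
      abs_le.2 ⟨by linarith [(abs_le.1 a).1, (abs_le.1 a').2],
        by linarith [(abs_le.1 a).2, (abs_le.1 a').1]⟩
    linarith
  have n2 : 2 ≤ q.n b := by rw [en]; nlinarith [m2 b hb]
  have u01 := (hu _ n2).2.1
  have z1 : ‖z‖ ≤ 1 := by linarith
  have Hm0 : 0 ≤ pHm o q.L := by have := ho.gap; unfold pHm; positivity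
  have zH : ‖z‖ * pHm o q.L ≤ η := (mul_le_mul_of_nonneg_right hz Hm0).trans htH
  have hF (X : Finset P) (hX : X ⊆ U) := ptop_Fd u01 z1 hθ hv hX
  obtain ⟨hpe, -⟩ := hp R (q.m b 0) ho.R1 (em b hb)
  have A0 : 0 < q.A := by linarith
  have M0 : 0 ≤ pK1 q.L H * Λ * o.r ^ (-(1 / 10 ^ 5) : ℝ) := by unfold pK1; positivity
  have M1 : pK1 q.L H * Λ * o.r ^ (-(1 / 10 ^ 5) : ℝ) * Real.exp D ≤ η ^ 2 * q.A⁻¹ ^ 2 := by
    rw [inv_pow, ← div_eq_mul_inv, le_div_iff₀ (by positivity)]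
    exact le_trans (le_of_eq (by ring)) hM
  have c0 (s : Lab) (X : Finset P) (hX : X ⊆ U) :
      0 ≤ ∏ B ∈ X, o.cp (q.n b) q.L s B * py q K b B ω :=
    prod_nonneg fun B hB => mul_nonneg (hm b hb s B (hU.1 (hX hB))).1.le (y1 _ _ _)
  refine ⟨fun s B hB => ?_, fun s X hX hc => ?_, fun X σ hX hc => ?_⟩
  · have hB' := hU.1 hB
    have a := pib_I hpur hI1 hI2 o q.L (q.m b 0) (κ := q.κ) (H := H) (K := K) (C := q.C) z
      (if ab (q.m b 0) B then En (bg (q.n b) z) (cell q.L B) else 0) (bg (q.n b) z + cf θ + v) θ ω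
      s B L1 ho hη ht hB' (en b ▸ hF {B} (singleton_subset_iff.2 hB)) zH hK2 hC
      (en b ▸ (hm b hb s B hB').1) (en b ▸ (hm b hb s B hB').2)
      (by split_ifs; exacts [pib_bg u01 z1 _ _, by rw [norm_zero]; positivity])
      fun hd => if_neg fun hab => by
        obtain ⟨d1, d2, -⟩ := hd
        rcases hab with e | e <;> rw [e] at d1 d2 <;> simp only at d1 d2 <;> omega
    rw [← en] at a
    simp only [Mod.pre, Par.Ih, Par.Qz, el, py]
    exact a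
  · have C1 : η ^ 2 ≤ q.C * η ^ 2 := le_mul_of_one_le_left (sq_nonneg _) (by linarith)
    have := c0 s X hX
    simp only [Mod.pre]
    split_ifs with hb'
    · have k := pkn_kp hwt hrho o q.L (q.m b 0) (κ := q.κ) (K := K) z (bg (q.n b) z + cf θ + v) θ ω
        X _ L1 ho hη H0 ht (hX.trans hU.1) (en b ▸ hF X hX) (hz.trans ht0) (by linarith) hg hK1
        (by linarith) ((hpe ω X _ ⟨hX.trans hU.1, hc⟩).1 s hb' rfl)
      have f := ptop_fin L1 hc.1 s r0 η0.le (by linarith) M0 (Real.exp_pos _).le M1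
        (fun B => en b ▸ y1 b B ω) (fun B hB => cl b hb s B (hU.1 (hX hB))) k
      rw [← en] at f
      exact f.trans (by simp only [py] at this ⊢; gcongr)
    · rw [norm_zero]; positivity
  · have := c0 0 X hX
    simp only [Mod.pre]
    split_ifs with hb'
    · have hZ := (hpe ω X σ ⟨hX.trans hU.1, hc⟩).2 hb'.1 hb'.2
      rw [sub_eq_add_neg _ (5 : ℝ)] at hZ
      have k := pkn_kp hwt hrho o q.L (q.m b 0) (κ := q.κ) (K := K) z (bg (q.n b) z + cf θ + v) θ ω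
        X σ L1 ho hη H0 ht (hX.trans hU.1) (en b ▸ hF X hX) (hz.trans ht0) (by linarith) hg hK1
        (by linarith) hZ
      have p5 : 0 < o.r ^ (-5 : ℝ) := by positivity
      have f := ptop_fin (n := q.L * q.m b 0) (k := ‖o.kp (q.L * q.m b 0) q.L (q.m b 0) t z
          (bg (q.n b) z + cf θ + v) ω X σ‖ / o.r ^ (-5 : ℝ)) L1 hc.1 0 r0 η0.le (by linarith) M0
        (Real.exp_pos (q.κ / 4 * ∑ x ∈ under q.L X, n1 (cf θ) x)).le M1
        (fun B => y1 b B ω) (fun B hB => cl b hb 0 B (hU.1 (hX hB)))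
        (by rw [ptop_cor0, Real.rpow_zero, div_le_iff₀ p5]
            exact k.trans (le_of_eq (by simp only [py, ← en]; ring)))
      rw [← en, div_le_iff₀ p5] at f
      have p4 : η ^ 2 * o.r ^ (-5 : ℝ) ≤ (2 * R : ℝ) ^ (-4 : ℝ) :=
        (mul_le_of_le_one_left p5.le (pow_le_one₀ η0.le (by linarith))).trans
          (Real.rpow_le_rpow_of_exponent_le r1 (by norm_num))
      refine f.trans ?_
      calc _ = η ^ 2 * o.r ^ (-5 : ℝ) * q.A⁻¹ ^ (2 * X.card) *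
            (∏ B ∈ X, o.cp (q.n b) q.L 0 B * py q K b B ω) *
            Real.exp (q.κ / 4 * ∑ x ∈ under q.L X, n1 (cf θ) x) := by ring
        _ ≤ _ := by gcongr
    · rw [norm_zero]; positivity

end Pool.Agent.Lib.MP_9cc147_pr.Cx
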