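import Pool.Agent.Lib.MP_9cc147_pr.Cx.P.S
import Pool.Agent.Lib.MP_9cc147_pr.Cx.B.Geo

/-! Size of the weight of one configuration. -/

open scoped Classical
open Finset

noncomputable section
namespace Pool.Agent.Lib.MP_9cc147_pr.Cx

theorem pwt_card (L : ℕ) (X : Finset P) : ((under L X).card : ℝ) ≤ (L : ℝ) ^ 2 * X.card := by
  have h : ∀ B : P, (cell L B).card = L ^ 2 := fun B => by
    simp only [cell, card_product, Int.card_Ico, add_mul, one_mul, add_sub_cancel_left,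
      Int.toNat_natCast, sq]
  have : (under L X).card ≤ L ^ 2 * X.card := by
    refine card_biUnion_le.trans ?_
    simp only [h, sum_const, smul_eq_mul, mul_comm, le_refl]
  exact_mod_cast this

theorem pwt_prod {ι : Type*} {T : Finset ι} {F : ι → ℂ} {g : ι → ℝ}
    (h : ∀ e ∈ T, ‖F e‖ ≤ Real.exp (g e)) : ‖∏ e ∈ T, F e‖ ≤ Real.exp (∑ e ∈ T, g e) := by
  rw [norm_prod, Real.exp_sum]
  exact prod_le_prod (fun _ _ => norm_nonneg _) h

theorem pwt_exp (c : ℝ) (D : ℂ) {b : ℝ} (h : |c| ≤ b) :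
    ‖Complex.exp (c * D ^ 2)‖ ≤ Real.exp (b * ‖D‖ ^ 2) := by
  refine (Complex.norm_exp_le_exp_norm _).trans (Real.exp_le_exp.2 ?_)
  rw [norm_mul, norm_pow, Complex.norm_real, Real.norm_eq_abs]
  exact mul_le_mul_of_nonneg_right h (sq_nonneg _)

theorem pwt_all (Ξ : Fld) (S : Finset P) (a b : ℝ) :
    ∑ e ∈ S ×ˢ (univ : Finset (Fin 4)), (a + b * ‖dg Ξ e.1 e.2‖ ^ 2) =
      4 * a * S.card + b * pQ Ξ S := by
  rw [sum_add_distrib, ← mul_sum, pQ, sum_product' (f := fun x d => ‖dg Ξ x d‖ ^ 2)]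
  simp
  ring

theorem pwt_sum1 (Ξ : Fld) {S : Finset P} {T : Finset (P × Fin 4)} (hT : ∀ e ∈ T, e.1 ∈ S)
    {a b : ℝ} (ha : 0 ≤ a) (hb : 0 ≤ b) :
    ∑ e ∈ T, (a + b * ‖dg Ξ e.1 e.2‖ ^ 2) ≤ 4 * a * S.card + b * pQ Ξ S := by
  rw [← pwt_all]
  exact sum_le_sum_of_subset_of_nonneg (fun e he => mem_product.2 ⟨hT e he, mem_univ _⟩)
    fun _ _ _ => by positivity

theorem pwt_sum2 (Ξ : Fld) (n : ℕ) (S : Finset P) {a b : ℝ} (ha : 0 ≤ a) (hb : 0 ≤ b) :
    ∑ e ∈ he n S, (a + b * ‖dg Ξ e.1 e.2‖ ^ 2) ≤ 2 * (4 * a * S.card + b * pQ Ξ S) := by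
  have hi : Function.Injective rev := Function.LeftInverse.injective bp_rev_rev
  rw [← sum_filter_add_sum_filter_not _ fun e => e.1 ∈ S, two_mul]
  refine add_le_add (pwt_sum1 Ξ (fun e h => (mem_filter.1 h).2) ha hb) ?_
  have h1 := pwt_sum1 Ξ (S := S) (T := ((he n S).filter fun e => ¬ e.1 ∈ S).image rev) (by
    intro e h
    obtain ⟨e', h', rfl⟩ := mem_image.1 h
    rw [mem_filter, he, mem_filter] at h'
    exact h'.1.2.resolve_left h'.2) ha hb
  rw [sum_image fun _ _ _ _ h => hi h] at h1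
  refine le_trans (le_of_eq (sum_congr rfl fun e _ => ?_)) h1
  rw [dg, dg, (bp_rev_crn e).1, (bp_rev_crn e).2, norm_sub_rev]

theorem pwt_shift (n : ℕ) (S : Finset P) (ρ : P → ℝ) (c : P) :
    ∑ x ∈ S, (if x + c ∈ inn n then ρ (x + c) else 0) ^ 2 ≤ ∑ p ∈ inn n, ρ p ^ 2 := by
  rw [← sum_image (s := S) (g := fun x => x + c) (f := fun p => (if p ∈ inn n then ρ p else 0) ^ 2)
    fun _ _ _ _ h => add_right_cancel h]
  simp only [ite_pow, ne_eq, OfNat.ofNat_ne_zero, not_false_eq_true, zero_pow, ← sum_filter]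
  exact sum_le_sum_of_subset_of_nonneg (fun p h => (mem_filter.1 h).2) fun _ _ _ => sq_nonneg _

theorem pwt_Q {n L : ℕ} (hL : 0 < L) {H : ℝ} {X : Finset P} {Θ : Fld} {θ ζ ρ : P → ℝ} {c : ℂ}
    (hc : ∀ p ∈ pV L X, ‖Θ p - θ p - c‖ ≤ H) :
    pQ (fun p => Θ p + ζ p + if p ∈ inn n then Complex.I * ρ p / 16 else 0) (under L X) ≤
      64 * H ^ 2 * (under L X).card + 8 * ∑ x ∈ under L X, n1 (cf θ) x +
        8 * ∑ x ∈ under L X, n1 (cf ζ) x + ∑ p ∈ inn n, ρ p ^ 2 / 4 := by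
  set r : P → ℝ := fun p => if p ∈ inn n then ρ p else 0 with hr
  have key : ∀ x ∈ under L X, ∀ d, ‖dg (fun p => Θ p + ζ p +
      if p ∈ inn n then Complex.I * ρ p / 16 else 0) x d‖ ^ 2 ≤ 16 * H ^ 2 +
        4 * ‖dg (cf θ) x d‖ ^ 2 + 4 * ‖dg (cf ζ) x d‖ ^ 2 +
        (r (x + crn (d + 1)) ^ 2 + r (x + crn d) ^ 2) / 32 := by
    intro x hx d
    obtain ⟨h1, h2⟩ := bp_ends hL (e := (x, d)) (Or.inl hx)
    have e : dg (fun p => Θ p + ζ p + if p ∈ inn n then Complex.I * ρ p / 16 else 0) x d =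
        ((Θ (x + crn (d + 1)) - θ (x + crn (d + 1)) - c) - (Θ (x + crn d) - θ (x + crn d) - c)) +
        dg (cf θ) x d + dg (cf ζ) x d +
        Complex.I * ((r (x + crn (d + 1)) - r (x + crn d)) / 16 : ℝ) := by
      simp only [dg, cf, hr]
      split_ifs <;> push_cast <;> ring
    have a1 := (norm_sub_le _ _).trans (add_le_add (hc _ h2) (hc _ h1))
    have a2 : ‖Complex.I * ((r (x + crn (d + 1)) - r (x + crn d)) / 16 : ℝ)‖ =
        |(r (x + crn (d + 1)) - r (x + crn d)) / 16| := by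
      rw [norm_mul, Complex.norm_I, one_mul, Complex.norm_real, Real.norm_eq_abs]
    rw [e]
    refine (pow_le_pow_left₀ (norm_nonneg _) ((norm_add_le _ _).trans (add_le_add
      (norm_add₃_le.trans (add_le_add (add_le_add a1 le_rfl) le_rfl)) a2.le)) 2).trans ?_
    have a3 := sq_abs ((r (x + crn (d + 1)) - r (x + crn d)) / 16)
    generalize |(r (x + crn (d + 1)) - r (x + crn d)) / 16| = w at a3
    generalize ‖dg (cf θ) x d‖ = u
    generalize ‖dg (cf ζ) x d‖ = v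
    nlinarith [sq_nonneg (H + H - u), sq_nonneg (H + H - v), sq_nonneg (H + H - w),
      sq_nonneg (u - v), sq_nonneg (u - w), sq_nonneg (v - w),
      sq_nonneg (r (x + crn (d + 1)) + r (x + crn d))]
  refine (sum_le_sum fun x hx => sum_le_sum fun d _ => key x hx d).trans ?_
  have s1 : ∀ f : Fin 4 → Fin 4, ∑ x ∈ under L X, ∑ d, r (x + crn (f d)) ^ 2 ≤
      4 * ∑ p ∈ inn n, ρ p ^ 2 := fun f => by
    rw [sum_comm]
    refine (sum_le_sum fun d _ => pwt_shift n _ ρ (crn (f d))).trans (le_of_eq ?_)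
    simp
  have s2 := s1 fun d => d + 1
  have s3 := s1 id
  simp only [sum_add_distrib, ← mul_sum, ← sum_div, n1, sum_const, card_univ, Fintype.card_fin,
    nsmul_eq_mul, id] at s2 s3 ⊢
  push_cast
  linarith

theorem pwt_Et (z : ℂ) {t : ℝ} (ht : t ≠ 0) (J : ℝ) : ‖Et z t J‖ ≤ (1 + ‖z‖ * |J|) ^ 2 := by
  have h1 : |(Real.cos (t * J) - 1) / t ^ 2| ≤ |J| ^ 2 := by
    rw [abs_div, abs_of_pos (by positivity : 0 < t ^ 2), div_le_iff₀ (by positivity), sq_abs, abs_le]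
    constructor <;> nlinarith [Real.one_sub_sq_div_two_le_cos (x := t * J), Real.cos_le_one (t * J),
      sq_nonneg (t * J)]
  have h2 : |Real.sin (t * J) / t| ≤ |J| := by
    rw [abs_div, div_le_iff₀ (abs_pos.2 ht), mul_comm, ← abs_mul]
    exact Real.abs_sin_le_abs
  refine norm_add₃_le.trans ?_
  rw [norm_one, norm_mul, norm_mul, norm_mul, norm_pow, Complex.norm_I, one_mul, Complex.norm_real,
    Complex.norm_real, Real.norm_eq_abs, Real.norm_eq_abs]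
  have h3 := mul_le_mul_of_nonneg_left h1 (sq_nonneg ‖z‖)
  have h4 := mul_le_mul_of_nonneg_left h2 (norm_nonneg z)
  have h5 : 0 ≤ ‖z‖ * |J| := by positivity
  nlinarith

theorem pwt_xw {o : Mod} (h : (o.a, o.x1) ∈ rect) (w : Gp o.R) : √(o.xw w) ≤ Real.exp 1 := by
  obtain ⟨⟨-, h1⟩, h2, h3⟩ := h
  simp only at h1 h2 h3
  have e1 : (2 : ℝ) ≤ Real.exp 1 := by linarith [Real.add_one_le_exp (1 : ℝ)]
  refine le_trans ?_ e1
  rw [Real.sqrt_le_left (by norm_num)]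
  unfold Mod.xw
  split_ifs
  · have e2 : Real.exp o.a ≤ 3 :=
      (Real.exp_le_exp.2 (by linarith)).trans (Real.exp_one_lt_d9.le.trans (by norm_num))
    have e3 : 4 * Real.exp o.a - 2 - 2 * o.x1 ^ 4 ≤ 16 := by nlinarith [pow_pos (by linarith : 0 < o.x1) 4]
    unfold Mod.x2
    refine (Real.abs_rpow_le_abs_rpow _ _ |>.trans' (le_abs_self _)).trans ?_
    have e4 : |4 * Real.exp o.a - 2 - 2 * o.x1 ^ 4| ≤ 2 ^ 4 := by
      have : o.x1 ^ 4 ≤ 1 := pow_le_one₀ (by linarith) (by linarith)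
      rw [abs_le]; constructor <;> linarith [Real.exp_pos o.a]
    refine (Real.rpow_le_rpow (abs_nonneg _) e4 (by norm_num)).trans ?_
    rw [one_div, show (4 : ℝ)⁻¹ = ((4 : ℕ) : ℝ)⁻¹ by norm_num, Real.pow_rpow_inv_natCast] <;> norm_num
  · linarith
  · norm_num

theorem pwt_gam {o : Mod} (h : (o.a, o.x1) ∈ rect) : |o.gam| ≤ 1 := by
  obtain ⟨⟨h1, -⟩, -⟩ := h
  simp only at h1
  have e2 : Real.exp (-o.a) ≤ 3 :=
    (Real.exp_le_exp.2 (by linarith)).trans (Real.exp_one_lt_d9.le.trans (by norm_num))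
  rw [Mod.gam, abs_le]
  constructor <;> linarith [Real.exp_pos (-o.a)]

theorem pwt_exc (L : ℕ) (σ : P → Option Lab) (e : P × Fin 4) : |exc L σ e| ≤ 1 := by
  unfold exc
  cases σ (par L (rev e).1) with
  | none => simp
  | some s =>
    simp only [Option.map_some, Option.getD_some, typ]
    split_ifs <;> norm_num

theorem pwt_ph {n L m : ℕ} {H : ℝ} (hH : 0 ≤ H) {X : Finset P} {Θ : Fld} {θ ρ : P → ℝ}
    (hF : pFd n L H X Θ θ) (h0 : ∀ p, p ∉ pV L X → ρ p = 0)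
    (h1 : (∀ p ∈ pV L X, p ∉ ring n) → ∑ p ∈ inn n, ρ p = 0) :
    ‖Complex.exp (∑ p ∈ inn n, (-(ρ p ^ 2 / 32 : ℝ) + Complex.I * ρ p *
      (Θ p - (∑ y ∈ refs n L m X, Θ y) / (refs n L m X).card)))‖ ≤
      Real.exp (∑ p ∈ inn n, (-ρ p ^ 2 / 32 + 2 * H * |ρ p|)) := by
  obtain ⟨c, hc, hr⟩ := hF
  have him : ∀ p ∈ pV L X, |(Θ p).im - c.im| ≤ H := fun p hp => by
    simpa using (Complex.abs_im_le_norm _).trans (hc p hp)
  have hsub : ∀ y ∈ refs n L m X, y ∈ pV L X ∧ y ∈ ring n := fun y hy =>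
    (mem_inter.1 (mem_filter.1 hy).1).symm
  set M : ℂ := (∑ y ∈ refs n L m X, Θ y) / (refs n L m X).card with hM
  obtain ⟨k, hk, hk0⟩ : ∃ k : ℝ, (∀ p ∈ pV L X, |(Θ p - M).im - k| ≤ 2 * H) ∧
      k * ∑ p ∈ inn n, ρ p = 0 := by
    by_cases hx : ∀ p ∈ pV L X, p ∉ ring n
    · refine ⟨c.im - M.im, fun p hp => ?_, by rw [h1 hx, mul_zero]⟩
      rw [Complex.sub_im, sub_sub_sub_cancel_right]
      linarith [him p hp]
    · push Not at hx
      obtain ⟨p0, hp0, hp1⟩ := hx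
      simp only [(hr p0 hp0 hp1).1, Complex.zero_im, sub_zero] at him
      have hm : |M.im| ≤ H := by
        rw [hM, Complex.div_natCast_im, Complex.im_sum, abs_div, Nat.abs_cast]
        refine div_le_of_le_mul₀ (Nat.cast_nonneg _) hH ((abs_sum_le_sum_abs _ _).trans ?_)
        rw [mul_comm, ← nsmul_eq_mul]
        exact sum_le_card_nsmul _ _ _ fun y hy => him y (hsub y hy).1
      refine ⟨0, fun p hp => ?_, zero_mul _⟩
      rw [Complex.sub_im, sub_zero]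
      linarith [abs_sub (Θ p).im M.im, him p hp]
  rw [Complex.norm_exp, Real.exp_le_exp, Complex.re_sum, ← add_zero (∑ p ∈ inn n, Complex.re _),
    ← hk0, mul_sum, ← sum_add_distrib]
  refine sum_le_sum fun p _ => ?_
  have e : (-((ρ p ^ 2 / 32 : ℝ) : ℂ) + Complex.I * ρ p * (Θ p - M)).re =
      -ρ p ^ 2 / 32 - ρ p * (Θ p - M).im := by
    rw [Complex.add_re, Complex.neg_re, Complex.ofReal_re, mul_assoc, Complex.I_mul_re,
      Complex.im_ofReal_mul]
    ring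
  rw [e]
  by_cases hp : p ∈ pV L X
  · have a1 := neg_abs_le (ρ p * ((Θ p - M).im - k))
    have a2 := mul_le_mul_of_nonneg_left (hk p hp) (abs_nonneg (ρ p))
    rw [abs_mul] at a1
    linarith
  · simp [h0 p hp]

theorem t_p_wt (h : S_p_rho) : S_p_wt := by
  intro o L m κ H t z Θ θ ω X σ δ hL hs hκ hH ht hX hδ hF
  obtain ⟨r0, r1, -, -⟩ := h o L m X δ ω hL hs.gap hX hδ
  have hD := pwt_ph (m := m) hH hF r0 r1
  obtain ⟨c, hc, -⟩ := hF
  have hQ := pwt_Q (n := L * m) (ζ := zw (L * m) ω) (ρ := o.rho (L * m) (under L X) δ ω) hL hc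
  have hcard := pwt_card L X
  have η0 := hs.η0
  have η1 := hs.η1
  unfold Mod.wt
  simp only []
  set ρ := o.rho (L * m) (under L X) δ ω with hρ
  set Ξ : Fld := fun p => Θ p + zw (L * m) ω p +
    if p ∈ inn (L * m) then Complex.I * ρ p / 16 else 0 with hΞ
  have hA := (pwt_prod (T := he (L * m) (under L X)) (F := fun e => ((√(o.xw (δ e)) : ℝ) : ℂ) *
      Complex.exp (-(if isG (δ e) then o.η / 4 else 0 : ℝ) * dg Ξ e.1 e.2 ^ 2))
      (g := fun e => 1 + o.η / 4 * ‖dg Ξ e.1 e.2‖ ^ 2) fun e _ => by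
    rw [norm_mul, Real.exp_add, Complex.norm_real, Real.norm_eq_abs,
      abs_of_nonneg (Real.sqrt_nonneg _), ← Complex.ofReal_neg]
    refine mul_le_mul (pwt_xw hs.τ _) (pwt_exp _ _ ?_) (norm_nonneg _) (Real.exp_pos _).le
    rw [abs_neg]
    split_ifs
    · exact (abs_of_pos (by positivity)).le
    · rw [abs_zero]; positivity).trans
    (Real.exp_le_exp.2 (pwt_sum2 Ξ _ _ zero_le_one (by positivity)))
  have hB := (pwt_prod (T := (hes (L * m)).filter fun e => e.1 ∈ under L X)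
      (F := fun e => Complex.exp (-(o.η / 4 : ℝ) * dg Ξ e.1 e.2 ^ 2) * (1 + o.eh : ℝ) *
        if ω (e.2.val, e.1) = 0 then o.hl (dg Ξ e.1 e.2) else 1)
      (g := fun e => 1 + o.η / 2 * ‖dg Ξ e.1 e.2‖ ^ 2) fun e _ => by
    have a1 : ‖((1 + o.eh : ℝ) : ℂ) * if ω (e.2.val, e.1) = 0 then o.hl (dg Ξ e.1 e.2) else 1‖ ≤
        Real.exp (2 * o.eh + o.sig0 * ‖dg Ξ e.1 e.2‖) := by
      split_ifs
      · have := norm_sub_norm_le (((1 + o.eh : ℝ) : ℂ) * o.hl (dg Ξ e.1 e.2)) 1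
        rw [norm_one] at this
        linarith [hs.hl (dg Ξ e.1 e.2)]
      · rw [mul_one, Complex.norm_real, Real.norm_eq_abs, abs_of_pos (by linarith [hs.eh0])]
        refine le_trans ?_ (Real.add_one_le_exp _)
        have := mul_nonneg hs.sig0 (norm_nonneg (dg Ξ e.1 e.2))
        linarith [hs.eh0]
    rw [mul_assoc, norm_mul, ← Complex.ofReal_neg]
    refine (mul_le_mul (pwt_exp _ _ (b := o.η / 4) (by rw [abs_neg, abs_of_pos (by positivity)])) a1
      (norm_nonneg _) (Real.exp_pos _).le).trans ?_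
    rw [← Real.exp_add, Real.exp_le_exp]
    have a2 := mul_le_mul_of_nonneg_right hs.sig1 (norm_nonneg (dg Ξ e.1 e.2))
    have a3 := hs.eh1
    generalize ‖dg Ξ e.1 e.2‖ = u at a2 ⊢
    have a4 : o.η ^ 2 ≤ o.η / 100 := by nlinarith
    have a5 : o.η ^ 2 * u ≤ o.η ^ 2 * (1 + u ^ 2) :=
      mul_le_mul_of_nonneg_left (by nlinarith [sq_nonneg (u - 1)]) (sq_nonneg _)
    have a6 := mul_le_mul_of_nonneg_right a4 (sq_nonneg u)
    have a7 := mul_nonneg η0.le (sq_nonneg u)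
    nlinarith).trans
    (Real.exp_le_exp.2 (pwt_sum1 Ξ (fun e h => (mem_filter.1 h).2) zero_le_one (by positivity)))
  have hC := (pwt_prod (T := crs (L * m) (under L X))
      (F := fun e => Complex.exp ((exc L σ e * o.gam * o.η / 4 : ℝ) * dg Ξ e.1 e.2 ^ 2))
      (g := fun e => 0 + o.η / 4 * ‖dg Ξ e.1 e.2‖ ^ 2) fun e _ => by
    rw [zero_add]
    refine pwt_exp _ _ ?_
    rw [mul_div_assoc, abs_mul, abs_mul, abs_of_pos (by positivity : 0 < o.η / 4)]
    exact mul_le_of_le_one_left (by positivity)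
      (mul_le_one₀ (pwt_exc L σ e) (abs_nonneg _) (pwt_gam hs.τ))).trans
    (Real.exp_le_exp.2 (pwt_sum1 Ξ (fun e h => (mem_filter.1 h).2.1) le_rfl (by positivity)))
  have hE : ‖if spec m X then Et z t (∑ p ∈ (ring (L * m)).filter (fun p => uB (L * m) p = 1), ρ p)
      else 1‖ ≤ (1 + ‖z‖ * |pJ o (L * m) (under L X) δ ω|) ^ 2 := by
    split_ifs
    · exact pwt_Et z ht _
    · rw [norm_one]
      exact one_le_pow₀ (le_add_of_nonneg_right (by positivity))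
  rw [norm_mul, norm_mul, norm_mul, norm_mul]
  refine mul_le_mul (le_trans (mul_le_mul (mul_le_mul (mul_le_mul hA hB (norm_nonneg _)
    (Real.exp_pos _).le) hC (norm_nonneg _) (by positivity)) hD (norm_nonneg _) (by positivity)) ?_)
    hE (norm_nonneg _) (Real.exp_pos _).le
  rw [← Real.exp_add, ← Real.exp_add, ← Real.exp_add, Real.exp_le_exp]
  have n0 : ∀ f : P → ℝ, 0 ≤ ∑ x ∈ under L X, n1 (cf f) x := fun f =>
    sum_nonneg fun _ _ => mul_nonneg (by norm_num) (sum_nonneg fun _ _ => sq_nonneg _)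
  have b1 := mul_le_mul_of_nonneg_right (by linarith : 10 * o.η ≤ κ / 4) (n0 θ)
  have b2 := mul_le_mul_of_nonneg_right (by linarith : 10 * o.η ≤ κ / 4) (n0 (zw (L * m) ω))
  have b3 := mul_le_mul_of_nonneg_left hQ η0.le
  have b4 : 0 ≤ ∑ p ∈ inn (L * m), ρ p ^ 2 := sum_nonneg fun _ _ => sq_nonneg _
  have b5 := mul_le_mul_of_nonneg_right η1 b4
  have b6 := mul_le_mul_of_nonneg_left hcard (sq_nonneg H)
  have b7 : 0 ≤ H ^ 2 * ((under L X).card : ℝ) := by positivity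
  have b8 := mul_le_mul_of_nonneg_right η1 b7
  have b9 : 0 ≤ ((under L X).card : ℝ) := Nat.cast_nonneg _
  simp only [sum_add_distrib, neg_div, sum_neg_distrib, ← sum_div] at b3 ⊢
  linarith

end Pool.Agent.Lib.MP_9cc147_pr.Cx
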