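import Pool.Agent.Lib.MP_9cc147_pr.Cx.P.S

/-! Integrability of the majorant of the noise. -/

open scoped Classical Topology
open Finset MeasureTheory ProbabilityTheory Filter

noncomputable section
namespace Pool.Agent.Lib.MP_9cc147_pr.Cx

theorem pyint_pi (m : Measure ℝ) [IsProbabilityMeasure m] {g : ℝ → ℝ} (hg : Integrable g m)
    (T : Finset (ℕ × P)) (hT : ∀ i ∈ T, i.1 < 4) :
    Integrable (fun ω : Om => ∏ i ∈ T, g (ω i)) (mu0 m) ∧
      ∫ ω : Om, ∏ i ∈ T, g (ω i) ∂mu0 m = (∫ x, g x ∂m) ^ T.card := by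
  have : ∀ i : ℕ × P, IsProbabilityMeasure (if i.1 < 4 then m else gaussianReal 0 1) :=
    fun i => by split_ifs <;> infer_instance
  have e : (mu0 m).map T.restrict = Measure.pi fun _ : T => m := by
    rw [mu0, Measure.infinitePi_map_restrict]
    exact congrArg _ (funext fun i => if_pos (hT i i.2))
  have h1 : Integrable (fun y : T → ℝ => ∏ i, g (y i)) ((mu0 m).map T.restrict) :=
    e ▸ Integrable.fintype_prod (f := fun _ : T => g) fun _ => hg
  have h2 : (fun ω : Om => ∏ i ∈ T, g (ω i)) = (fun y : T → ℝ => ∏ i, g (y i)) ∘ T.restrict :=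
    funext fun ω => (prod_coe_sort T fun i => g (ω i)).symm
  have h3 : AEMeasurable (T.restrict : Om → T → ℝ) (mu0 m) := (measurable_restrict T).aemeasurable
  rw [h2]
  refine ⟨h1.comp_aemeasurable h3, (integral_map h3 h1.1).symm.trans ?_⟩
  rw [e, integral_fintype_prod_eq_prod (fun _ : T => g), prod_const, card_univ, Fintype.card_coe]

theorem pyint_disj {L : ℕ} (hL : 0 < L) (S : Finset P) :
    (S : Set P).PairwiseDisjoint (cell L) := by
  refine fun B _ B' _ hne => disjoint_left.2 fun x h1 h2 => hne ?_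
  have l0 : (0 : ℤ) < L := by exact_mod_cast hL
  have e : ∀ a b y : ℤ, a * L ≤ y → y < (a + 1) * L → b * L ≤ y → y < (b + 1) * L → a = b :=
    fun a b y k1 k2 k3 k4 => by
      have := lt_of_mul_lt_mul_right (k1.trans_lt k4) l0.le
      have := lt_of_mul_lt_mul_right (k3.trans_lt k2) l0.le
      omega
  simp only [cell, mem_product, mem_Ico] at h1 h2
  exact Prod.ext (e _ _ _ h1.1.1 h1.1.2 h2.1.1 h2.1.2) (e _ _ _ h1.2.1 h1.2.2 h2.2.1 h2.2.2)

theorem t_p_yint : S_p_yint := by
  intro q K m _ b S hL κ0 hK hi hb hM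
  have l0 : 0 < q.L := by omega
  have L2 : (2 : ℝ) ≤ q.L := by exact_mod_cast hL
  let F : Om → ℝ := fun ω => ∑ x ∈ under q.L S, n1 (cf (zw (q.n b) ω)) x
  let G : Om → ℝ := fun ω => ∏ i ∈ range 4 ×ˢ under q.L S, pg K (ω i)
  have e : ∀ ω, ∏ B ∈ S, py q K b B ω = Real.exp (q.κ * F ω) * G ω := fun ω => by
    simp only [py, pY, F, G, under]
    rw [prod_mul_distrib, ← Real.exp_sum, ← mul_sum, sum_biUnion (pyint_disj l0 S),
      prod_product_right, prod_biUnion (pyint_disj l0 S)]
    simp only [prod_range]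
  have F0 : ∀ ω, 0 ≤ F ω := fun ω => sum_nonneg fun x _ => by unfold n1; positivity
  have G0 : ∀ ω, 0 ≤ G ω := fun ω => prod_nonneg fun i _ => by
    unfold pg
    split_ifs <;> positivity
  obtain ⟨g1, g2⟩ := pyint_pi m hi (range 4 ×ˢ under q.L S) fun i hi =>
    mem_range.1 (mem_product.1 hi).1
  simp only [prod_pow] at g1 g2
  have mp : Measurable (pg K) :=
    Measurable.ite (measurableSet_singleton 0) measurable_const (by fun_prop)
  have mG : Measurable G := Finset.measurable_prod _ fun i _ => mp.comp (measurable_pi_apply i)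
  have mF : AEMeasurable (fun ω => Real.exp (q.κ * F ω)) (mu0 m) := by
    refine (hM.1.1.aemeasurable.pow_const (q.L : ℝ)⁻¹).congr (.of_forall fun ω => ?_)
    beta_reduce
    rw [← Real.exp_mul]
    congr 1
    simp only [F]
    field_simp
  have hi2 := (hM.1.add g1).div_const 2
  have le : ∀ ω, Real.exp (q.κ * F ω) * G ω ≤ (Real.exp (q.L * q.κ * F ω) + G ω ^ 2) / 2 :=
    fun ω => by
      have h1 : Real.exp (q.κ * F ω) ^ 2 ≤ Real.exp (q.L * q.κ * F ω) := by
        rw [← Real.exp_nat_mul, mul_assoc]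
        exact Real.exp_le_exp.2 (mul_le_mul_of_nonneg_right (by exact_mod_cast hL)
          (mul_nonneg κ0 (F0 ω)))
      nlinarith [sq_nonneg (Real.exp (q.κ * F ω) - G ω)]
  have hi3 : Integrable (fun ω => Real.exp (q.κ * F ω) * G ω) (mu0 m) :=
    hi2.mono' (mF.mul mG.aemeasurable).aestronglyMeasurable (.of_forall fun ω => by
      rw [Real.norm_of_nonneg (mul_nonneg (Real.exp_pos _).le (G0 ω))]
      exact le ω)
  simp only [e]
  refine ⟨hi3, (integral_mono hi3 hi2 le).trans ?_⟩
  have c : (range 4 ×ˢ under q.L S).card = 4 * q.L ^ 2 * S.card := by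
    rw [card_product, card_range, under, card_biUnion (pyint_disj l0 S), mul_assoc,
      sum_const_nat (m := q.L ^ 2) fun B _ => by simp [cell, add_mul, sq], mul_comm S.card]
  have h1 : (∫ x, pg K x ^ 2 ∂m) ^ (4 * q.L ^ 2) ≤ 2 := by
    refine (pow_le_pow_left₀ (integral_nonneg fun _ => sq_nonneg _) (hb.trans
      ((add_comm _ _).trans_le (Real.add_one_le_exp _))) _).trans ?_
    rw [← Real.exp_nat_mul, ← Real.le_log_iff_exp_le two_pos]
    refine le_trans (le_of_eq (b := 1 / 5) ?_) (by linarith [Real.log_two_gt_d9])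
    push_cast
    field_simp
    norm_num
  have h2 : ∫ ω, G ω ^ 2 ∂mu0 m ≤ 2 ^ S.card := by
    refine g2.trans_le ?_
    rw [c, pow_mul]
    exact pow_le_pow_left₀ (pow_nonneg (integral_nonneg fun _ => sq_nonneg _) _) h1 _
  have h3 : (5 / 4 : ℝ) ^ S.card ≤ 2 ^ S.card := pow_le_pow_left₀ (by norm_num) (by norm_num) _
  simp only [Pi.add_apply]
  rw [integral_div, integral_add hM.1 g1]
  linarith [hM.2]

end Pool.Agent.Lib.MP_9cc147_pr.Cx
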