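import Pool.Agent.Lib.MP_9cc147_pr.Cx.P.Top
import Pool.Agent.Lib.MP_9cc147_pr.Cx.P.I
import Pool.Agent.Lib.MP_9cc147_pr.Cx.P.Mh
import Pool.Agent.Lib.MP_9cc147_pr.Cx.P.Rho
import Pool.Agent.Lib.MP_9cc147_pr.Cx.P.Wt
import Pool.Agent.Lib.MP_9cc147_pr.Cx.P.Yint

namespace Pool.Agent.Lib.MP_9cc147_pr.Cx

theorem t_preB0 (h_u : S_u) (h_zmom : S_zmom) (h_pei : S_pei) (h_cp : S_cp) (hmg : S_p_marg) : S_preB :=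
  ptop_main h_u h_zmom h_pei h_cp hmg t_p_rho (t_p_pur t_p_rho) t_p_mh t_p_yint (t_p_wt t_p_rho)
    (t_p_I1 (t_p_pur t_p_rho)) (t_p_I2 (t_p_pur t_p_rho))

end Pool.Agent.Lib.MP_9cc147_pr.Cx
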