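import Pool.Agent.Lib.MP_9cc147_pr.Cx.P.Top2
import Pool.Agent.Lib.MP_9cc147_pr.Cx.P.Marg

namespace Pool.Agent.Lib.MP_9cc147_pr.Cx

theorem t_preB (h_u : S_u) (h_zmom : S_zmom) (h_uni : S_uni) (h_pei : S_pei) (h_cp : S_cp) :
    S_preB := t_preB0 h_u h_zmom h_pei h_cp (t_p_marg h_uni)

end Pool.Agent.Lib.MP_9cc147_pr.Cx
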